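import Pool.Agent.XD.Num.Euler
import Pool.Agent.H21.HD.Main
import Pool.Agent.H21.NX.GenB

/-!
# XD, module K: beyond the layer

From the second part of `Pool.Agent.H21.HD.main` (`k = t`, `m s = d + 1 - e s`, `I = univ`), `fro_range`,
`gen_gdim`.  `fro r (fun s : Fin t => ..) univ j = fro r .. (range t) j`: `fro_map` or induction.
-/

set_option autoImplicit false

namespace Pool.Agent.XD

open Finset Pool.Agent.H21.NX Pool.Agent.H21.HD Pool.Agent.H18.Fat

private theorem Kill_fro (e : ℕ → ℕ) (r t j : ℕ) :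
    fro r (fun s : Fin t => e s) univ j = A e (r + 1) t j := by
  have h1 : (univ : Finset (Fin t)).map Fin.valEmbedding = range t := by
    ext x
    rw [mem_map, mem_range]
    constructor
    · rintro ⟨y, -, rfl⟩
      exact y.2
    · intro hx
      exact ⟨⟨x, hx⟩, mem_univ _, rfl⟩
  have h2 := fro_map r (Fin.valEmbedding : Fin t ↪ ℕ) e univ j
  rw [h1, fro_range] at h2
  exact h2.symm

theorem kill (d : ℕ) (η : ℝ) (hη : 0 < η) : ∃ n₀ : ℕ, ∀ m, n₀ ≤ m → ∀ (e : ℕ → ℕ) (t : ℕ),
    (∀ s < t, 1 ≤ e s ∧ e s ≤ d) → (∃ j ≤ d, (A e m t j : ℝ) ≤ -(η * (m : ℝ) ^ j)) →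
      FF e m t d = 0 := by
  obtain ⟨r₀, h⟩ := main d η hη
  refine ⟨r₀ + 1, fun m hm e t he hA => ?_⟩
  obtain ⟨r, rfl⟩ : ∃ r, m = r + 1 := ⟨m - 1, by omega⟩
  obtain ⟨j, hj, hA⟩ := hA
  have he' : (fun i : Fin t => d + 1 - (d + 1 - e i)) = fun i : Fin t => e i := by
    funext i
    have := he i i.2
    omega
  have h1 := (h r (by omega) t (fun s => d + 1 - e s) fun i => by
    have := he i i.2
    omega).2 (Or.inr ⟨univ, fun i _ => by
      have := he i i.2
      omega, j, hj, by
      rw [he', Kill_fro]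
      refine hA.trans (neg_le_neg (mul_le_mul_of_nonneg_left ?_ hη.le))
      have h2 : (j + r).choose r ≤ (r + 1) ^ j := by
        have h3 := multichoose_le_pow (r + 1) j
        rw [Nat.multichoose_eq] at h3
        have h4 : r + 1 + j - 1 = j + r := by omega
        rw [h4] at h3
        have h5 : (j + r).choose r = (j + r).choose j := by
          rw [Nat.choose_symm_add]
        rw [h5]
        exact h3
      exact_mod_cast h2⟩)
  obtain ⟨p, hp⟩ := Gen.exists (r := r) (κ := Fin t) h1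
  have h6 := gdim_le r d (fun s : Fin t => d + 1 - e s) p
  rw [hp.1] at h6
  exact Nat.le_zero.1 h6

end Pool.Agent.XD
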