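import Pool.Agent.XD.Struct
import Pool.Agent.H21.HD.Inst
import Pool.Agent.H74.V8.Cone

/-!
# XD, module B: sequences; the exponents `1`

An exponent `1` (a point of multiplicity `d`) lowers the number of variables by one (`gdim_one`, `fro_cone`).
Without such points `e s = d + 1 - m s` for `s < k`.
-/

set_option autoImplicit false

namespace Pool.Agent.XD

open Finset Pool.Agent.H21.NX Pool.Agent.H21.HD

/-- A general linear form. -/
theorem Seq_FF_one (d : ℕ) (e : ℕ → ℕ) (he : ∀ t, 1 ≤ e t) (r n : ℕ) (h1 : e n = 1) :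
    FF e (r + 2) (n + 1) d = FF e (r + 1) n d := by
  classical
  obtain ⟨N, hN, hF⟩ := (sys_FF d e he).stair (r + 2) n (by omega)
  rw [hF d le_rfl, ← hN.cnt (r + 1) (by omega) d le_rfl]
  congr 1
  ext v
  rw [mem_filter, mem_lay, mem_lay, h1, Nat.lt_one_iff, Multiset.count_eq_zero]
  constructor
  · rintro ⟨⟨h2, h3, h4⟩, h5⟩
    refine ⟨h2, h3, fun x hx => ?_⟩
    have h6 := h4 x hx
    have h7 : x ≠ r + 2 - 1 := fun h => h5 (h ▸ hx)
    omega
  · rintro ⟨h2, h3, h4⟩
    refine ⟨⟨h2, h3, fun x hx => ?_⟩, fun h => ?_⟩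
    · have := h4 x hx
      omega
    · have := h4 _ h
      omega

/-- A point of multiplicity `d` lowers the number of variables by one. -/
theorem gdim_one (r d n : ℕ) (m : Fin n → ℕ) (hm : ∀ i, 1 ≤ m i ∧ m i ≤ d) :
    gdim (r + 1) d (Sum.elim m fun _ : Unit => d) = gdim r d m := by
  obtain ⟨e, he⟩ : ∃ e : ℕ → ℕ, e = fun s => if h : s < n then d + 1 - m ⟨s, h⟩ else 1 := ⟨_, rfl⟩
  have he1 : ∀ s, 1 ≤ e s := by
    intro s
    rw [he]
    show 1 ≤ if h : s < n then d + 1 - m ⟨s, h⟩ else 1
    split_ifs with h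
    · have := hm ⟨s, h⟩
      omega
    · exact le_rfl
  have hn : e n = 1 := by
    rw [he]
    exact dif_neg (lt_irrefl n)
  have hs : ∀ s : Fin n, d + 1 - e s = m s := by
    intro s
    have h1 : e s = d + 1 - m s := by
      rw [he]
      exact dif_pos s.2
    have := hm s
    omega
  have h1 := Seq_FF_one d e he1 r n hn
  have h2 : FF e (r + 1) n d = gdim r d m := by
    show gdim r d (fun s : Fin n => d + 1 - e s) = gdim r d m
    congr 1
    funext s
    exact hs s
  have h3 : FF e (r + 2) (n + 1) d = gdim (r + 1) d (Sum.elim m fun _ : Unit => d) := by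
    show gdim (r + 1) d (fun s : Fin (n + 1) => d + 1 - e s) = _
    let f : Fin n ⊕ Unit ≃ Fin (n + 1) :=
      (Equiv.optionEquivSumPUnit (Fin n)).symm.trans (finSuccEquivLast).symm
    rw [← gdim_comp_equiv (r + 1) d f (fun s : Fin (n + 1) => d + 1 - e s)]
    congr 1
    funext x
    rcases x with i | i
    · have h4 : f (Sum.inl i) = Fin.castSucc i := by simp [f]
      rw [h4]
      exact hs i
    · have h4 : f (Sum.inr i) = Fin.last n := by
        simp [f]
      rw [h4]
      show d + 1 - e n = d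
      omega
  rw [← h3, h1, h2]

private theorem Seq_fro_zero {P : Type} (r : ℕ) (E : P → ℕ) (I : Finset P) (hE : ∀ i, 1 ≤ E i) :
    fro r E I 0 = 1 := by
  classical
  unfold fro
  rw [Finset.sum_eq_single (∅ : Finset P)]
  · simp
  · intro T _ hT
    obtain ⟨x, hx⟩ := Finset.nonempty_iff_ne_empty.2 hT
    have h1 := Finset.single_le_sum (f := E) (fun _ _ => Nat.zero_le _) hx
    have h2 := hE x
    rw [if_neg (by omega), mul_zero]
  · intro h
    exact absurd (Finset.empty_mem_powerset I) h

private theorem Seq_fro_le {P : Type} (r : ℕ) (E : P → ℕ) (I : Finset P) (hE : ∀ i, 1 ≤ E i) :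
    fro r E I 1 ≤ r + 1 := by
  classical
  induction I using Finset.induction_on with
  | empty =>
    unfold fro
    simp
  | insert a s ha ih =>
    rw [fro_insert' r E s a ha 1]
    split_ifs with h
    · have h1 : 1 - E a = 0 := by
        have := hE a
        omega
      rw [h1, Seq_fro_zero r E s hE]
      omega
    · omega

private theorem Seq_card {n : ℕ} (i : Fin (n + 1)) (P : Fin (n + 1) → Prop) [DecidablePred P] :
    (univ.filter P).card = (if P i then 1 else 0) + (univ.filter fun j => P (i.succAbove j)).card := by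
  rw [Finset.card_filter, Finset.card_filter, Fin.sum_univ_succAbove _ i]

private theorem Seq_A (r : ℕ) (e : ℕ → ℕ) (k : ℕ) (j : ℕ) :
    fro r (fun s : Fin k => e s) univ j = A e (r + 1) k j := by
  induction k generalizing j with
  | zero =>
    unfold fro A
    have h1 : (univ : Finset (Fin 0)) = ∅ := rfl
    rw [h1]
    simp only [Finset.powerset_empty, Finset.sum_singleton, Finset.card_empty, pow_zero,
      Finset.sum_empty, Nat.zero_le, if_true, Nat.sub_zero, one_mul]
    rw [Nat.multichoose_eq, show r + 1 + j - 1 = r + j by omega]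
    congr 1
    rw [← Nat.choose_symm (show r ≤ r + j by omega)]
    congr 1
    omega
  | succ k ih =>
    have h1 : ∀ j, fro r (fun s : Fin (k + 1) => e s) ((univ : Finset (Fin k)).map Fin.castSuccEmb) j =
        A e (r + 1) k j := by
      intro j
      rw [Pool.Agent.H74.V8C.fro_map, ← ih j]
      rfl
    have h2 : e ((Fin.last k : Fin (k + 1)) : ℕ) = e k := rfl
    rw [Fin.univ_castSuccEmb, Finset.cons_eq_insert, fro_insert' _ _ _ _ (by simp), h2, h1, h1]
    rfl

private theorem Seq_A_one {e : ℕ → ℕ} (he : ∀ s, 2 ≤ e s) (m t : ℕ) : A e m t 1 = m := by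
  induction t with
  | zero =>
    show ((Nat.multichoose m 1 : ℕ) : ℤ) = m
    rw [Nat.multichoose_one_right]
  | succ t ih =>
    show A e m t 1 - (if e t ≤ 1 then A e m t (1 - e t) else 0) = m
    have := he t
    rw [if_neg (by omega), sub_zero, ih]

private theorem Seq_aux (r d k : ℕ) (m : Fin k → ℕ) (hm : ∀ i, 1 ≤ m i ∧ m i ≤ d)
    (h1 : 0 < fro r (fun i => d + 1 - m i) univ 1) :
    ∃ (e : ℕ → ℕ) (m' t : ℕ), (∀ s, 2 ≤ e s) ∧ (∀ s < t, e s ≤ d) ∧ m' ≤ r + 1 ∧
      (∀ j, fro r (fun i => d + 1 - m i) univ j = A e m' t j) ∧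
      gdim r d m = FF e m' t d := by
  classical
  obtain ⟨c, hc⟩ : ∃ c, c = (univ.filter fun i => m i = d).card := ⟨_, rfl⟩
  induction c generalizing r k m with
  | zero =>
    -- no points of multiplicity `d`
    have h2 : ∀ i, m i + 1 ≤ d := by
      intro i
      have h3 := hc.symm
      rw [card_eq_zero, filter_eq_empty_iff] at h3
      have h4 := h3 (mem_univ i)
      have h5 := hm i
      omega
    obtain ⟨e, he⟩ : ∃ e : ℕ → ℕ, e = fun s => if h : s < k then d + 1 - m ⟨s, h⟩ else 2 :=
      ⟨_, rfl⟩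
    have hes : ∀ s : Fin k, e s = d + 1 - m s := by
      intro s
      rw [he]
      exact dif_pos s.2
    refine ⟨e, r + 1, k, ?_, ?_, le_rfl, ?_, ?_⟩
    · intro s
      rw [he]
      show 2 ≤ if h : s < k then d + 1 - m ⟨s, h⟩ else 2
      split_ifs with h
      · have := h2 ⟨s, h⟩
        omega
      · exact le_rfl
    · intro s hs
      have h3 : e s = d + 1 - m ⟨s, hs⟩ := hes ⟨s, hs⟩
      have := hm ⟨s, hs⟩
      omega
    · intro j
      rw [← Seq_A]
      congr 1
      funext s
      exact (hes s).symm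
    · show gdim r d m = gdim r d (fun s : Fin k => d + 1 - e s)
      congr 1
      funext s
      rw [hes s]
      have := hm s
      omega
  | succ c ih =>
    obtain ⟨i, hi⟩ : (univ.filter fun i => m i = d).Nonempty := by
      rw [← card_pos]
      omega
    have hi2 : m i = d := (mem_filter.1 hi).2
    obtain ⟨n, rfl⟩ : ∃ n, k = n + 1 := by
      rcases k with _ | n
      · exact i.elim0
      · exact ⟨n, rfl⟩
    have hE1 : (fun i => d + 1 - m i) i = 1 := by
      show d + 1 - m i = 1
      omega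
    have huniv : (univ : Finset (Fin (n + 1))) = insert i (univ.map i.succAboveEmb) := by
      rw [Fin.univ_succAbove n i, Finset.cons_eq_insert]
    have hnot : i ∉ (univ : Finset (Fin n)).map i.succAboveEmb := by simp
    obtain ⟨s, rfl⟩ : ∃ s, r = s + 1 := by
      rcases r with _ | s
      · exfalso
        have hE2 : d + 1 - m i = 1 := hE1
        rw [huniv, fro_insert' 0 _ _ i hnot 1, hE2, if_pos le_rfl, Nat.sub_self,
          Seq_fro_zero 0 _ _ (fun i => by have := hm i; omega)] at h1
        have h2 := Seq_fro_le 0 (fun i => d + 1 - m i) ((univ : Finset (Fin n)).map i.succAboveEmb)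
          (fun i => by have := hm i; omega)
        push_cast at h2
        omega
      · exact ⟨s, rfl⟩
    have hfro : ∀ j, fro (s + 1) (fun i => d + 1 - m i) univ j =
        fro s (fun j => d + 1 - m (i.succAbove j)) univ j := by
      intro j
      rw [huniv, Pool.Agent.H74.V8C.fro_cone s (fun i => d + 1 - m i) _ i hnot hE1 j,
        Pool.Agent.H74.V8C.fro_map]
      rfl
    have hc' : c = (univ.filter fun j => m (i.succAbove j) = d).card := by
      rw [Seq_card i, if_pos hi2] at hc
      omega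
    obtain ⟨e, m', t, he, hed, hm', hA, hF⟩ := ih s n (fun j => m (i.succAbove j)) (fun j => hm _)
      (by rw [← hfro]; exact h1) hc'
    refine ⟨e, m', t, he, hed, by omega, fun j => by rw [hfro j, hA j], ?_⟩
    let f : Fin (n + 1) ≃ Fin n ⊕ Unit :=
      (finSuccEquiv' i).trans (Equiv.optionEquivSumPUnit (Fin n))
    have h2 := gdim_comp_equiv (s + 1) d f
      (Sum.elim (fun j => m (i.succAbove j)) fun _ : Unit => d)
    have h3 : (fun j => Sum.elim (fun j => m (i.succAbove j)) (fun _ : Unit => d) (f j)) = m := by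
      funext j
      by_cases hj : j = i
      · rw [hj]
        simp [f, hi2]
      · obtain ⟨y, rfl⟩ := Fin.exists_succAbove_eq hj
        simp [f]
    rw [h3, gdim_one s d n _ fun j => hm _] at h2
    rw [h2, hF]

theorem exists_seq (r d k : ℕ) (m : Fin k → ℕ) (hm : ∀ i, 1 ≤ m i ∧ m i ≤ d)
    (h1 : 0 < fro r (fun i => d + 1 - m i) univ 1) :
    ∃ (e : ℕ → ℕ) (m' t : ℕ), (∀ s, 2 ≤ e s) ∧ (∀ s < t, e s ≤ d) ∧ m' ≤ r + 1 ∧
      (m' : ℤ) = fro r (fun i => d + 1 - m i) univ 1 ∧
      (∀ j, fro r (fun i => d + 1 - m i) univ j = A e m' t j) ∧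
      gdim r d m = FF e m' t d := by
  obtain ⟨e, m', t, he, hed, hm', hA, hF⟩ := Seq_aux r d k m hm h1
  exact ⟨e, m', t, he, hed, hm', by rw [hA 1, Seq_A_one he], hA, hF⟩

end Pool.Agent.XD
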