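import Pool.Agent.XD.Num.Xd
import Pool.Agent.XD.Seq
import Pool.Agent.XD.Num.Layer
import Pool.Agent.XD.Kill

/-!
# XD: the dimension for all configurations off a thin layer

Let `a_j = fro r (d + 1 - m) univ j`; `a_1 = r + 1 - #{i | m i = d}` is the number of variables left when the
cones are removed.
-/

set_option autoImplicit false

namespace Pool.Agent.XD

open Finset Pool.Agent.H21.NX Pool.Agent.H21.HD Pool.Agent.H18.Fat

/-- The dimension of `V_d(Γ)`, for all configurations with at least `n₀` variables left when the cones are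
removed, off the layer `- η a_1^d < a_d ≤ 0 < a_j` (`j < d`); a lower bound for `0 < a_d < η a_1^d`. -/
theorem classify (d : ℕ) (η : ℝ) (hη : 0 < η) : ∃ n₀ : ℕ, ∀ (r k : ℕ) (m : Fin k → ℕ),
    (∀ i, 1 ≤ m i ∧ m i ≤ d) → (n₀ : ℤ) ≤ fro r (fun i => d + 1 - m i) univ 1 →
      ((∃ j < d, fro r (fun i => d + 1 - m i) univ j ≤ 0) ∨
          (fro r (fun i => d + 1 - m i) univ d : ℝ) ≤
            -(η * (fro r (fun i => d + 1 - m i) univ 1 : ℝ) ^ d) →
        ForGeneralPoints r k fun p => Module.finrank ℂ (fatForms r d p m) = 0) ∧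
      ((∀ j ≤ d, 0 < fro r (fun i => d + 1 - m i) univ j) →
        ForGeneralPoints r k fun p =>
          fro r (fun i => d + 1 - m i) univ d ≤ (Module.finrank ℂ (fatForms r d p m) : ℤ)) ∧
      ((∀ j ≤ d, 0 < fro r (fun i => d + 1 - m i) univ j) →
        η * (fro r (fun i => d + 1 - m i) univ 1 : ℝ) ^ d ≤
          (fro r (fun i => d + 1 - m i) univ d : ℝ) →
        ForGeneralPoints r k fun p => (Module.finrank ℂ (fatForms r d p m) : ℤ) =
          fro r (fun i => d + 1 - m i) univ d) := by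
  obtain ⟨c, hc, n₁, hL⟩ := layer d
  have hη' : 0 < min c η := lt_min hc hη
  obtain ⟨n₂, hK⟩ := kill d (min c η) hη'
  obtain ⟨n₃, hLow⟩ := xd_lower d c hc
  obtain ⟨n₄, hX⟩ := xd d (min c η) hη'
  refine ⟨n₁ + n₂ + n₃ + n₄ + 1, fun r k m hm hn => ?_⟩
  have h1 : 0 < fro r (fun i => d + 1 - m i) univ 1 := by
    refine lt_of_lt_of_le ?_ hn
    push_cast
    positivity
  obtain ⟨e, m', t, he, hed, _, hm1, hA, hg⟩ := exists_seq r d k m hm h1
  have he1 : ∀ s, 1 ≤ e s := fun s => le_trans (by norm_num) (he s)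
  have hF : Sys d e (FF e) := sys_FF d e he1
  have hn' : n₁ + n₂ + n₃ + n₄ + 1 ≤ m' := by
    rw [← hm1] at hn
    exact_mod_cast hn
  have hgen : ForGeneralPoints r k fun p =>
      Module.finrank ℂ (fatForms r d p m) = FF e m' t d := by
    rw [← hg]
    exact gen_gdim r d m
  have hm1R : (fro r (fun i => d + 1 - m i) univ 1 : ℝ) = (m' : ℝ) := by
    rw [← hm1]
    push_cast
    rfl
  obtain ⟨hL1, hL2⟩ := hL m' (by omega) e he t
  have hpow : ∀ j : ℕ, 0 ≤ (m' : ℝ) ^ j := fun j => by positivity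
  refine ⟨fun h => ?_, fun h => ?_, fun h h' => ?_⟩
  · have h2 : ∃ j ≤ d, (A e m' t j : ℝ) ≤ -(min c η * (m' : ℝ) ^ j) := by
      rcases h with ⟨j, hj, hj0⟩ | h
      · obtain ⟨i, hi, hi'⟩ := hL2 ⟨j, hj, by rw [← hA j]; exact hj0⟩
        refine ⟨i, hi, hi'.trans (neg_le_neg ?_)⟩
        exact mul_le_mul_of_nonneg_right (min_le_left _ _) (hpow i)
      · refine ⟨d, le_rfl, ?_⟩
        rw [hm1R, hA d] at h
        exact h.trans (neg_le_neg (mul_le_mul_of_nonneg_right (min_le_right _ _) (hpow d)))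
    have h3 := hK m' (by omega) e t (fun s hs => ⟨he1 s, hed s hs⟩) h2
    rw [h3] at hgen
    exact hgen
  · have h2 := hL1 fun j hj => by rw [← hA j]; exact h j hj
    have h3 := hLow m' (by omega) e (FF e) he hF m' t le_rfl h2
    refine hgen.mono fun p hp => ?_
    rw [hp, hA d]
    exact h3
  · have h2 := hL1 fun j hj => by rw [← hA j]; exact h j hj
    have h3 := hX m' (by omega) e (FF e) he hF m' t le_rfl fun j hj => by
      rcases lt_or_eq_of_le hj with hj | rfl
      · exact (mul_le_mul_of_nonneg_right (min_le_left _ _) (hpow j)).trans (h2 j hj)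
      · rw [hm1R, hA j] at h'
        exact (mul_le_mul_of_nonneg_right (min_le_right _ _) (hpow j)).trans h'
    refine hgen.mono fun p hp => ?_
    rw [hp, hA d]
    exact h3

end Pool.Agent.XD
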