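import Mathlib

/-!
# XD: the transport argument

`δ m i ≥ 0` is the defect in `m` variables for the first `i` points, `ad m i = a_d(m; i)`,
`be m i = a_{d-1}(m; i)`, `al m i = a_{d-e}(m; i)` for the exponent `e` of the point `i`,
`w i = s_{d-e}(n) ≥ al m i`.  `G m i`: all lower degrees are off the layer.
-/

set_option autoImplicit false

namespace Pool.Agent.XD

open Finset

/-- Constants: `ρ` is the smaller one of `1` and `η / (4 C)`, `lam = ρ / (4 C)`, `ε = ρ / 4`. -/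
private theorem Trans_core {C η ρ lam ε : ℝ} (hC : 1 ≤ C) (hρ : 0 < ρ) (hρ1 : ρ ≤ 1)
    (hlam : 0 < lam) (hlamC : lam * C ≤ ρ / 4) (hε : ε ≤ ρ / 4) (d n : ℕ)
    (hn : 1 ≤ n) (N : ℕ) (w : ℕ → ℝ) (ad al be δ : ℕ → ℕ → ℝ) (G : ℕ → ℕ → Prop)
    (hw : ∀ i < N, 0 ≤ w i) (hW : ∑ i ∈ range N, w i ≤ C * (n : ℝ) ^ d)
    (h0 : ∀ m, G m 0 → δ m 0 ≤ 0)
    (hδ : ∀ m i, G m i → δ m i ≤ C * (n : ℝ) ^ d)
    (hstep : ∀ m i, i < N → G m (i + 1) → η / 2 * (n : ℝ) ^ d ≤ ad m (i + 1) →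
      G m i ∧ ∃ m', m = m' + 1 ∧ G m' i ∧
        ad m (i + 1) = ad m i - al m i ∧ ad m' i = ad m i - be m i ∧
        0 ≤ al m i ∧ al m i ≤ w i ∧ 0 < be m i ∧ be m i * n ≤ C * (n : ℝ) ^ d ∧
        2 * al m i ≤ be m i ∧
        ∃ k k₁ : ℝ, δ m (i + 1) = δ m i + k ∧ δ m' i = δ m i + k₁ ∧
          (1 - ε) * be m i * k ≤ al m i * k₁) :
    ∀ i, i ≤ N → ∀ m, G m i →
      δ m i ≤ C * (n : ℝ) ^ d * Real.exp (lam * (η / 2 + C * ρ) * n) *
        Real.exp (-(lam * n / (n : ℝ) ^ d * (ad m i + ρ * ∑ l ∈ Ico i N, w l))) := by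
  have hn0 : (0 : ℝ) < n := by exact_mod_cast hn
  have hnd : (0 : ℝ) < (n : ℝ) ^ d := pow_pos hn0 d
  have hC0 : (0 : ℝ) < C := by linarith
  obtain ⟨X, hX⟩ : ∃ X : ℝ, X = lam * n / (n : ℝ) ^ d := ⟨_, rfl⟩
  have hX0 : 0 < X := by rw [hX]; positivity
  have hXn : X * (n : ℝ) ^ d = lam * n := by rw [hX]; field_simp
  rw [← hX]
  obtain ⟨Q, hQ⟩ : ∃ Q : ℝ, Q = C * (n : ℝ) ^ d * Real.exp (lam * (η / 2 + C * ρ) * n) := ⟨_, rfl⟩
  have hQ0 : 0 < Q := by rw [hQ]; positivity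
  rw [← hQ]
  have hWi : ∀ i, ∑ l ∈ Ico i N, w l ≤ C * (n : ℝ) ^ d := by
    intro i
    refine le_trans (sum_le_sum_of_subset_of_nonneg ?_ ?_) hW
    · intro l hl
      rw [mem_Ico] at hl
      rw [mem_range]
      exact hl.2
    · intro l hl _
      exact hw l (mem_range.1 hl)
  intro i
  induction i with
  | zero =>
    intro _ m hm
    exact le_trans (h0 m hm) (by positivity)
  | succ i ih =>
    intro hi m hm
    rcases lt_or_ge (ad m (i + 1)) (η / 2 * (n : ℝ) ^ d) with hlt | hge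
    · refine le_trans (hδ m (i + 1) hm) ?_
      rw [hQ, mul_assoc, ← Real.exp_add]
      have h1 : X * (ad m (i + 1) + ρ * ∑ l ∈ Ico (i + 1) N, w l) ≤
          lam * (η / 2 + C * ρ) * n := by
        calc X * (ad m (i + 1) + ρ * ∑ l ∈ Ico (i + 1) N, w l)
            ≤ X * (η / 2 * (n : ℝ) ^ d + ρ * (C * (n : ℝ) ^ d)) := by
              refine mul_le_mul_of_nonneg_left ?_ hX0.le
              have := mul_le_mul_of_nonneg_left (hWi (i + 1)) hρ.le
              linarith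
          _ = (X * (n : ℝ) ^ d) * (η / 2 + C * ρ) := by ring
          _ = lam * (η / 2 + C * ρ) * n := by rw [hXn]; ring
      have h2 : (1 : ℝ) ≤ Real.exp (lam * (η / 2 + C * ρ) * n +
          -(X * (ad m (i + 1) + ρ * ∑ l ∈ Ico (i + 1) N, w l))) := by
        rw [← Real.exp_zero]
        exact Real.exp_le_exp.2 (by linarith)
      exact le_mul_of_one_le_right (by positivity) h2
    · obtain ⟨hG, m', rfl, hG', hadd, hadm, hal0, halw, hbe, hbeC, h2al, k, k₁, hk, hk₁, hkk⟩ :=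
        hstep m i (by omega) hm hge
      have e1 := ih (by omega) (m' + 1) hG
      have e2 := ih (by omega) m' hG'
      obtain ⟨P, hP⟩ : ∃ P : ℝ, P = Q * Real.exp (-(X * (ad (m' + 1) i + ρ * ∑ l ∈ Ico i N, w l))) :=
        ⟨_, rfl⟩
      have hP0 : 0 < P := by rw [hP]; positivity
      have hsum : ∑ l ∈ Ico i N, w l = w i + ∑ l ∈ Ico (i + 1) N, w l := by
        rw [← Finset.sum_eq_sum_Ico_succ_bot (by omega : i < N)]
      have eP1 : Q * Real.exp (-(X * (ad (m' + 1) (i + 1) + ρ * ∑ l ∈ Ico (i + 1) N, w l))) =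
          P * Real.exp (X * (al (m' + 1) i + ρ * w i)) := by
        rw [hP, mul_assoc, ← Real.exp_add, hadd, hsum]
        congr 2
        ring
      have eP2 : Q * Real.exp (-(X * (ad m' i + ρ * ∑ l ∈ Ico i N, w l))) =
          P * Real.exp (X * be (m' + 1) i) := by
        rw [hP, mul_assoc, ← Real.exp_add, hadm]
        congr 2
        ring
      rw [eP1]
      rw [← hP] at e1
      rw [eP2] at e2
      have hε1 : 0 < 1 - ε := by linarith
      -- the weight `τ`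
      obtain ⟨τ, hτ⟩ : ∃ τ : ℝ, τ = al (m' + 1) i / ((1 - ε) * be (m' + 1) i) := ⟨_, rfl⟩
      have hb1 : 0 < (1 - ε) * be (m' + 1) i := mul_pos hε1 hbe
      have hτ0 : 0 ≤ τ := by rw [hτ]; exact div_nonneg hal0 hb1.le
      have hτ1 : τ ≤ 1 := by
        rw [hτ, div_le_one hb1]
        nlinarith
      have hkτ : k ≤ τ * k₁ := by
        rw [hτ, div_mul_eq_mul_div, le_div_iff₀ hb1]
        linarith
      have hy0 : 0 ≤ X * be (m' + 1) i := mul_nonneg hX0.le hbe.le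
      have hyC : X * be (m' + 1) i ≤ lam * C := by
        have h1 : X * be (m' + 1) i * n ≤ lam * C * n := by
          calc X * be (m' + 1) i * n = X * (be (m' + 1) i * n) := by ring
            _ ≤ X * (C * (n : ℝ) ^ d) := mul_le_mul_of_nonneg_left hbeC hX0.le
            _ = (X * (n : ℝ) ^ d) * C := by ring
            _ = lam * C * n := by rw [hXn]; ring
        exact le_of_mul_le_mul_right h1 hn0
      have hexp : Real.exp (X * be (m' + 1) i) ≤
          1 + X * be (m' + 1) i * (1 + lam * C) := by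
        have h1 : |X * be (m' + 1) i| ≤ 1 := by
          rw [abs_of_nonneg hy0]
          linarith
        have h2 := (abs_le.1 (Real.abs_exp_sub_one_sub_id_le h1)).2
        nlinarith
      have hτy : τ * (X * be (m' + 1) i) = X * al (m' + 1) i / (1 - ε) := by
        rw [hτ]
        field_simp
      have hfrac : X * al (m' + 1) i / (1 - ε) * (1 + lam * C) ≤ X * al (m' + 1) i * (1 + ρ) := by
        rw [div_mul_eq_mul_div, div_le_iff₀ hε1, mul_assoc (X * al (m' + 1) i) (1 + ρ)]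
        refine mul_le_mul_of_nonneg_left ?_ (mul_nonneg hX0.le hal0)
        nlinarith
      have hlow := Real.add_one_le_exp (X * (al (m' + 1) i + ρ * w i))
      have hXw : X * al (m' + 1) i * ρ ≤ X * (ρ * w i) := by
        have := mul_le_mul_of_nonneg_left halw (mul_nonneg hX0.le hρ.le)
        nlinarith
      have hmain : (1 - τ) + τ * Real.exp (X * be (m' + 1) i) ≤
          Real.exp (X * (al (m' + 1) i + ρ * w i)) := by
        have h1 : τ * Real.exp (X * be (m' + 1) i) ≤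
            τ * (1 + X * be (m' + 1) i * (1 + lam * C)) := mul_le_mul_of_nonneg_left hexp hτ0
        have h2 : τ * (1 + X * be (m' + 1) i * (1 + lam * C)) =
            τ + X * al (m' + 1) i / (1 - ε) * (1 + lam * C) := by
          rw [← hτy]
          ring
        nlinarith
      calc δ (m' + 1) (i + 1) = δ (m' + 1) i + k := hk
        _ ≤ δ (m' + 1) i + τ * k₁ := by linarith
        _ = (1 - τ) * δ (m' + 1) i + τ * δ m' i := by rw [hk₁]; ring
        _ ≤ (1 - τ) * P + τ * (P * Real.exp (X * be (m' + 1) i)) := by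
          refine add_le_add (mul_le_mul_of_nonneg_left e1 (by linarith))
            (mul_le_mul_of_nonneg_left e2 hτ0)
        _ = P * ((1 - τ) + τ * Real.exp (X * be (m' + 1) i)) := by ring
        _ ≤ P * Real.exp (X * (al (m' + 1) i + ρ * w i)) := mul_le_mul_of_nonneg_left hmain hP0.le

/-- The transport argument: the defect vanishes off the layer. -/
theorem trans (d : ℕ) (C η : ℝ) (hC : 1 ≤ C) (hη : 0 < η) :
    ∃ ε : ℝ, 0 < ε ∧ ε ≤ 1 / 4 ∧ ∃ n₀ : ℕ, ∀ n : ℕ, n₀ ≤ n →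
    ∀ (N : ℕ) (w : ℕ → ℝ) (ad al be δ : ℕ → ℕ → ℝ) (G : ℕ → ℕ → Prop),
    (∀ i < N, 0 ≤ w i) → (∑ i ∈ range N, w i ≤ C * (n : ℝ) ^ d) →
    (∀ m, G m 0 → δ m 0 ≤ 0) →
    (∀ m i, G m i → δ m i ≤ C * (n : ℝ) ^ d) →
    (∀ m i, i < N → G m (i + 1) → η / 2 * (n : ℝ) ^ d ≤ ad m (i + 1) →
      G m i ∧ ∃ m', m = m' + 1 ∧ G m' i ∧
        ad m (i + 1) = ad m i - al m i ∧ ad m' i = ad m i - be m i ∧
        0 ≤ al m i ∧ al m i ≤ w i ∧ 0 < be m i ∧ be m i * n ≤ C * (n : ℝ) ^ d ∧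
        2 * al m i ≤ be m i ∧
        ∃ k k₁ : ℝ, δ m (i + 1) = δ m i + k ∧ δ m' i = δ m i + k₁ ∧
          (1 - ε) * be m i * k ≤ al m i * k₁) →
    ∀ m, G m N → η * (n : ℝ) ^ d ≤ ad m N → δ m N < 1 := by
  have hC0 : (0 : ℝ) < C := by linarith
  obtain ⟨ρ, hρdef⟩ : ∃ ρ : ℝ, ρ = min 1 (η / (4 * C)) := ⟨_, rfl⟩
  have hρ : 0 < ρ := by rw [hρdef]; exact lt_min one_pos (by positivity)
  have hρ1 : ρ ≤ 1 := by rw [hρdef]; exact min_le_left _ _
  have hρη : C * ρ ≤ η / 4 := by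
    have h1 : ρ ≤ η / (4 * C) := by rw [hρdef]; exact min_le_right _ _
    calc C * ρ ≤ C * (η / (4 * C)) := mul_le_mul_of_nonneg_left h1 hC0.le
      _ = η / 4 := by field_simp
  obtain ⟨lam, hlamdef⟩ : ∃ lam : ℝ, lam = ρ / (4 * C) := ⟨_, rfl⟩
  have hlam : 0 < lam := by rw [hlamdef]; positivity
  have hlamC : lam * C ≤ ρ / 4 := by
    rw [hlamdef]
    exact le_of_eq (by field_simp)
  obtain ⟨c, hc⟩ : ∃ c : ℝ, c = lam * (η / 4) := ⟨_, rfl⟩
  have hc0 : 0 < c := by rw [hc]; positivity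
  obtain ⟨n₁, hn₁⟩ := exists_nat_gt (C * ((d + 1).factorial : ℝ) / c ^ (d + 1))
  refine ⟨ρ / 4, by positivity, by linarith, n₁ + 1, fun n hn N w ad al be δ G hw hW h0 hδ hstep m hm
    hadm => ?_⟩
  have hn0 : (0 : ℝ) < n := by
    have : 0 < n := by omega
    exact_mod_cast this
  have hnd : (0 : ℝ) < (n : ℝ) ^ d := pow_pos hn0 d
  have h1 := Trans_core hC hρ hρ1 hlam hlamC le_rfl d n (by omega) N w ad al be δ G hw hW h0 hδ
    hstep N le_rfl m hm
  rw [Ico_self, sum_empty, mul_zero, add_zero, mul_assoc, ← Real.exp_add] at h1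
  refine lt_of_le_of_lt h1 ?_
  have h2 : lam * n / (n : ℝ) ^ d * ad m N ≥ lam * n * η := by
    calc lam * n * η = lam * n / (n : ℝ) ^ d * (η * (n : ℝ) ^ d) := by field_simp
      _ ≤ lam * n / (n : ℝ) ^ d * ad m N :=
        mul_le_mul_of_nonneg_left hadm (by positivity)
  have h3 : lam * (η / 2 + C * ρ) * n + -(lam * n / (n : ℝ) ^ d * ad m N) ≤ -(c * n) := by
    have h4 : lam * (η / 2 + C * ρ) * n ≤ lam * (η / 2 + η / 4) * n := by
      refine mul_le_mul_of_nonneg_right (mul_le_mul_of_nonneg_left (by linarith) hlam.le) hn0.le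
    rw [hc]
    nlinarith
  have h5 : Real.exp (lam * (η / 2 + C * ρ) * n + -(lam * n / (n : ℝ) ^ d * ad m N)) ≤
      Real.exp (-(c * n)) := Real.exp_le_exp.2 h3
  have h6 : C * (n : ℝ) ^ d < Real.exp (c * n) := by
    have h7 := Real.pow_div_factorial_le_exp (c * n) (by positivity) (d + 1)
    refine lt_of_lt_of_le ?_ h7
    have h8 : C * ((d + 1).factorial : ℝ) / c ^ (d + 1) < n := by
      refine hn₁.trans ?_
      have : n₁ < n := by omega
      exact_mod_cast this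
    rw [div_lt_iff₀ (by positivity)] at h8
    rw [lt_div_iff₀ (by positivity), mul_pow]
    calc C * (n : ℝ) ^ d * ((d + 1).factorial : ℝ) = C * ((d + 1).factorial : ℝ) * (n : ℝ) ^ d := by
          ring
      _ < n * c ^ (d + 1) * (n : ℝ) ^ d := mul_lt_mul_of_pos_right h8 hnd
      _ = c ^ (d + 1) * (n : ℝ) ^ (d + 1) := by ring
  calc C * (n : ℝ) ^ d * Real.exp (lam * (η / 2 + C * ρ) * n + -(lam * n / (n : ℝ) ^ d * ad m N))
      ≤ C * (n : ℝ) ^ d * Real.exp (-(c * n)) := mul_le_mul_of_nonneg_left h5 (by positivity)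
    _ < Real.exp (c * n) * Real.exp (-(c * n)) := mul_lt_mul_of_pos_right h6 (Real.exp_pos _)
    _ = 1 := by rw [← Real.exp_add]; simp

end Pool.Agent.XD
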