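import Pool.Agent.XD.Coord
import Pool.Agent.XD.Num.FB

/-!
# XD, module S: the system of the dimensions

For `m = r + 1` take `N j` from `gen_coord r d (fun s : Fin t => e s)` and the multisets
`∑ i, Multiset.replicate (v i) i.val`, `v ∈ N j`, `j ≤ d`.  (`u ≤ v` as multisets: coordinatewise.)
`cnt` for `i = 0`: only the empty multiset (`N 0 = {0}`, by the number `gdim 0 0 _ = 1`, or `div`).
The last clause with `c = e t`: `Fin (t + 1) ≃ Fin t ⊕ Unit` (`gdim_comp_equiv`).
`zero`: `gdim_empty`, `Nat.multichoose_eq`.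
-/

set_option autoImplicit false

namespace Pool.Agent.XD

open Finset Pool.Agent.H21.NX

namespace StructX

open MvPolynomial Pool.Agent.H18.Fat Pool.Agent.H21.HD

/-- The multiset of an exponent vector. -/
private def ms {n : ℕ} (v : Fin n → ℕ) : Multiset ℕ := ∑ i, Multiset.replicate (v i) i.val

/-- The exponent vector of a multiset. -/
private def vec (n : ℕ) (u : Multiset ℕ) : Fin n → ℕ := fun i => u.count i.val

private theorem count_ms {n : ℕ} (v : Fin n → ℕ) (i : Fin n) : (ms v).count i.val = v i := by
  classical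
  unfold ms
  rw [Multiset.count_sum', Finset.sum_eq_single i]
  · rw [Multiset.count_replicate, if_pos rfl]
  · intro k _ hk
    rw [Multiset.count_replicate, if_neg]
    intro h
    exact hk (Fin.ext h)
  · intro h
    exact absurd (mem_univ i) h

private theorem lt_of_mem_ms {n : ℕ} (v : Fin n → ℕ) {x : ℕ} (hx : x ∈ ms v) : x < n := by
  unfold ms at hx
  rw [Multiset.mem_sum] at hx
  obtain ⟨i, _, hi⟩ := hx
  rw [Multiset.eq_of_mem_replicate hi]
  exact i.2

private theorem vec_ms {n : ℕ} (v : Fin n → ℕ) : vec n (ms v) = v := by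
  funext i
  exact count_ms v i

private theorem ms_vec {n : ℕ} (u : Multiset ℕ) (hu : ∀ x ∈ u, x < n) : ms (vec n u) = u := by
  classical
  ext a
  by_cases ha : a < n
  · exact count_ms (vec n u) ⟨a, ha⟩
  · rw [Multiset.count_eq_zero.2 fun h => ha (hu a h),
      Multiset.count_eq_zero.2 fun h => ha (lt_of_mem_ms _ h)]

private theorem card_ms {n : ℕ} (v : Fin n → ℕ) : Multiset.card (ms v) = ∑ i, v i := by
  unfold ms
  rw [Multiset.card_sum]
  exact sum_congr rfl fun i _ => Multiset.card_replicate _ _

private theorem ms_inj {n : ℕ} : Function.Injective (ms : (Fin n → ℕ) → Multiset ℕ) := by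
  intro v w h
  rw [← vec_ms v, ← vec_ms w, h]

/-- No conditions. -/
private theorem gdim_zero' (r d : ℕ) {κ : Type} (m : κ → ℕ) (hm : ∀ i, m i = 0) :
    gdim r d m = (d + r).choose r := by
  obtain ⟨p₀, hp₀⟩ := GenBX.gdim_attained r d m
  have h : fatForms r d p₀ m = homogeneousSubmodule (Fin (r + 1)) ℂ d := by
    ext F
    refine ⟨fun hF => hF.1, fun hF => ⟨hF, fun i => ?_⟩⟩
    rw [hm i]
    intro a ha
    exact absurd ha (Nat.not_lt_zero _)
  rw [← hp₀, h, Pool.Agent.H21.HD.BridgeDX.finrank_homog']

/-- The stair in `r + 1` variables. -/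
private theorem stair_succ (d : ℕ) (e : ℕ → ℕ) (he : ∀ t, 1 ≤ e t) (r t : ℕ) :
    ∃ N : Finset (Multiset ℕ), Stair (r + 1) d N (fun i j => FF e i t j) ∧
      ∀ j ≤ d, FF e (r + 1) (t + 1) j =
        ((lay N (r + 1) j).filter fun v => v.count r < e t).card := by
  classical
  obtain ⟨N, h1, h2, h3, h4, h5⟩ := gen_coord r d (fun s : Fin t => e s) (fun s => he s)
  let M : Finset (Multiset ℕ) := (range (d + 1)).biUnion fun j => (N j).image ms
  have memM : ∀ u, u ∈ M ↔ (∀ x ∈ u, x < r + 1) ∧ Multiset.card u ≤ d ∧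
      vec (r + 1) u ∈ N (Multiset.card u) := by
    intro u
    constructor
    · intro hu
      rw [mem_biUnion] at hu
      obtain ⟨j, hj, hu⟩ := hu
      rw [mem_image] at hu
      obtain ⟨v, hv, rfl⟩ := hu
      have hc : Multiset.card (ms v) = j := by
        rw [card_ms, h1 j v hv]
      refine ⟨fun x hx => lt_of_mem_ms v hx, ?_, ?_⟩
      · rw [hc]
        exact Nat.lt_succ_iff.1 (mem_range.1 hj)
      · rw [hc, vec_ms]
        exact hv
    · rintro ⟨hu1, hu2, hu3⟩
      rw [mem_biUnion]
      refine ⟨Multiset.card u, mem_range.2 (Nat.lt_succ_iff.2 hu2), ?_⟩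
      rw [mem_image]
      exact ⟨_, hu3, ms_vec u hu1⟩
  have layM : ∀ i j, j ≤ d → lay M i j =
      ((N j).filter fun v => ∀ l : Fin (r + 1), i ≤ l.1 → v l = 0).image ms := by
    intro i j hj
    ext u
    rw [mem_lay, memM, mem_image]
    constructor
    · rintro ⟨⟨hu1, hu2, hu3⟩, hu4, hu5⟩
      refine ⟨vec (r + 1) u, ?_, ms_vec u hu1⟩
      rw [mem_filter]
      refine ⟨by rw [← hu4]; exact hu3, fun l hl => ?_⟩
      exact Multiset.count_eq_zero.2 fun h => absurd (hu5 l.1 h) (not_lt.2 hl)
    · rintro ⟨v, hv, rfl⟩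
      rw [mem_filter] at hv
      have hc : Multiset.card (ms v) = j := by
        rw [card_ms, h1 j v hv.1]
      refine ⟨⟨fun x hx => lt_of_mem_ms v hx, by rw [hc]; exact hj, ?_⟩, hc, fun x hx => ?_⟩
      · rw [hc, vec_ms]
        exact hv.1
      · by_contra hcon
        push Not at hcon
        have hx' := lt_of_mem_ms v hx
        have h0 := hv.2 ⟨x, hx'⟩ hcon
        have h0' := count_ms v ⟨x, hx'⟩
        rw [h0] at h0'
        exact Multiset.count_eq_zero.1 h0' hx
  have hone : (0 : Multiset ℕ) ∈ M := by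
    have hcard := h4 0 (Nat.zero_le d) 0 (Nat.zero_le r)
    rw [gdim_zero' 0 0 _ (fun s => by have := he s; omega)] at hcard
    have hne : ((N 0).filter fun v => ∀ l : Fin (r + 1), 0 < l.1 → v l = 0).Nonempty := by
      rw [← card_pos, hcard]
      decide
    obtain ⟨v, hv⟩ := hne
    rw [mem_filter] at hv
    rw [memM]
    refine ⟨fun x hx => absurd hx (Multiset.notMem_zero x), by simp, ?_⟩
    have hv0 : v = vec (r + 1) 0 := by
      funext i
      have hs := h1 0 v hv.1
      rw [sum_eq_zero_iff] at hs
      rw [hs i (mem_univ i)]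
      simp [vec]
    rw [Multiset.card_zero, ← hv0]
    exact hv.1
  refine ⟨M, ⟨?_, ?_, ?_, ?_⟩, ?_⟩
  · intro v hv
    exact ((memM v).1 hv).1
  · intro v hv u hu
    obtain ⟨hv1, hv2, hv3⟩ := (memM v).1 hv
    have hu1 : ∀ x ∈ u, x < r + 1 := fun x hx => hv1 x (Multiset.mem_of_le hu hx)
    rw [memM]
    refine ⟨hu1, (Multiset.card_le_card hu).trans hv2, ?_⟩
    have hs : ∑ i, vec (r + 1) u i = Multiset.card u := by
      rw [← card_ms, ms_vec u hu1]
    rw [← hs]
    exact h2 _ hv2 _ hv3 _ fun i => Multiset.count_le_of_le i.1 hu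
  · intro v hv a ha b hab hb
    obtain ⟨hv1, hv2, hv3⟩ := (memM v).1 hv
    have har : a < r + 1 := hv1 a ha
    have hcard : Multiset.card (b ::ₘ v.erase a) = Multiset.card v := by
      rw [Multiset.card_cons, Multiset.card_erase_add_one ha]
    rw [memM]
    refine ⟨?_, by rw [hcard]; exact hv2, ?_⟩
    · intro x hx
      rcases Multiset.mem_cons.1 hx with rfl | hx
      · exact hb
      · exact hv1 x (Multiset.mem_of_mem_erase hx)
    · rw [hcard]
      refine h3 _ hv2 _ hv3 _ ⟨a, har⟩ ⟨b, hb⟩ hab ?_ ?_ ?_
      · change v.count a = (b ::ₘ v.erase a).count a + 1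
        rw [Multiset.count_cons_of_ne hab.ne, Multiset.count_erase_self]
        have : 0 < v.count a := Multiset.count_pos.2 ha
        omega
      · change (b ::ₘ v.erase a).count b = v.count b + 1
        rw [Multiset.count_cons_self, Multiset.count_erase_of_ne hab.ne']
      · intro l hla hlb
        have hla' : l.1 ≠ a := fun h => hla (Fin.ext h)
        have hlb' : l.1 ≠ b := fun h => hlb (Fin.ext h)
        change (b ::ₘ v.erase a).count l.1 = v.count l.1
        rw [Multiset.count_cons_of_ne hlb', Multiset.count_erase_of_ne hla']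
  · intro i hi j hj
    rcases i with _ | i
    · change (lay M 0 j).card = if j = 0 then 1 else 0
      by_cases hj0 : j = 0
      · subst hj0
        rw [if_pos rfl]
        have : lay M 0 0 = {0} := by
          ext u
          rw [mem_lay, mem_singleton]
          constructor
          · rintro ⟨_, hu, _⟩
            exact Multiset.card_eq_zero.1 hu
          · rintro rfl
            exact ⟨hone, Multiset.card_zero, fun x hx => absurd hx (Multiset.notMem_zero x)⟩
        rw [this, card_singleton]
      · rw [if_neg hj0, card_eq_zero]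
        apply eq_empty_of_forall_notMem
        intro u hu
        rw [mem_lay] at hu
        obtain ⟨_, hu1, hu2⟩ := hu
        have hpos : 0 < Multiset.card u := by omega
        obtain ⟨x, hx⟩ := Multiset.card_pos_iff_exists_mem.1 hpos
        exact absurd (hu2 x hx) (Nat.not_lt_zero x)
    · change (lay M (i + 1) j).card = gdim i j fun s : Fin t => j + 1 - e s
      rw [layM (i + 1) j hj, card_image_of_injective _ ms_inj, ← h4 j hj i (by omega)]
      rfl
  · intro j hj
    change gdim r j (fun s : Fin (t + 1) => j + 1 - e s) = _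
    have hlay : lay M (r + 1) j = (N j).image ms := by
      rw [layM (r + 1) j hj]
      congr 1
      apply filter_true_of_mem
      intro v _ l hl
      exact absurd l.2 (not_lt.2 hl)
    have hcount : ∀ v : Fin (r + 1) → ℕ, (ms v).count r = v (Fin.last r) := by
      intro v
      exact count_ms v (Fin.last r)
    rw [hlay, filter_image, card_image_of_injective _ ms_inj]
    have hfil : ((N j).filter fun v => (ms v).count r < e t) =
        (N j).filter fun v => v (Fin.last r) < e t := by
      apply filter_congr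
      intro v _
      rw [hcount v]
    rw [hfil, h5 j hj (e t) (he t)]
    let ε : Fin t ⊕ Unit ≃ Fin (t + 1) :=
      (Equiv.sumCongr (Equiv.refl (Fin t)) (Equiv.ofUnique Unit (Fin 1))).trans finSumFinEquiv
    rw [← gdim_comp_equiv r j ε (fun s : Fin (t + 1) => j + 1 - e s)]
    congr 1
    funext x
    rcases x with s | u
    · rfl
    · rfl

end StructX

open StructX

theorem sys_FF (d : ℕ) (e : ℕ → ℕ) (he : ∀ t, 1 ≤ e t) : Sys d e (FF e) := by
  constructor
  · intro m j _
    rcases m with _ | m
    · change (if j = 0 then 1 else 0) = Nat.multichoose 0 j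
      rcases j with _ | j
      · simp
      · simp
    · change gdim m j (fun s : Fin 0 => j + 1 - e s) = _
      rw [gdim_empty, Nat.multichoose_eq, Nat.choose_symm_add.symm]
      congr 1
      omega
  · intro m t hm
    obtain ⟨r, rfl⟩ : ∃ r, m = r + 1 := ⟨m - 1, by omega⟩
    exact stair_succ d e he r t

end Pool.Agent.XD
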