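import Mathlib

/-!
# Project XD: polynomial families of spaces of functions
-/

set_option autoImplicit false

namespace Pool.Agent.XD

open Finset

/-- Independence at `0` implies independence at some `t ≠ 0`. -/
theorem indep_near {E ι : Type} [Fintype E] [Fintype ι] (F : ι → E → Polynomial ℂ)
    (h : LinearIndependent ℂ fun i e => Polynomial.eval 0 (F i e)) :
    ∃ t : ℂ, t ≠ 0 ∧ LinearIndependent ℂ fun i e => Polynomial.eval t (F i e) := by
  classical
  let Φ : (ι → ℂ) →ₗ[ℂ] (E → ℂ) :=
    { toFun := fun c => ∑ i, c i • fun e => Polynomial.eval 0 (F i e)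
      map_add' := fun c c' => by
        rw [← sum_add_distrib]
        exact sum_congr rfl fun i _ => by rw [Pi.add_apply, add_smul]
      map_smul' := fun a c => by
        rw [RingHom.id_apply, smul_sum]
        exact sum_congr rfl fun i _ => by rw [Pi.smul_apply, smul_eq_mul, mul_smul] }
  have hΦ : LinearMap.ker Φ = ⊥ := by
    rw [LinearMap.ker_eq_bot']
    intro c hc
    exact funext (Fintype.linearIndependent_iff.1 h c hc)
  obtain ⟨L, hL⟩ := LinearMap.exists_leftInverse_of_injective Φ hΦ
  have hLe : ∀ (w : E → ℂ) (k : ι), L w k = ∑ e, L (Pi.single e 1) k * w e := by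
    intro w k
    have h1 : w = ∑ e, w e • (Pi.single e 1 : E → ℂ) := by
      funext e
      rw [Finset.sum_apply, sum_eq_single e]
      · simp
      · intro e' _ he
        rw [Pi.smul_apply, Pi.single_eq_of_ne (Ne.symm he), smul_zero]
      · intro h2
        exact absurd (mem_univ e) h2
    conv_lhs => rw [h1]
    rw [map_sum, Finset.sum_apply]
    refine sum_congr rfl fun e _ => ?_
    rw [map_smul, Pi.smul_apply, smul_eq_mul, mul_comm]
  let P : Matrix ι ι (Polynomial ℂ) := Matrix.of fun i k =>
    ∑ e, Polynomial.C (L (Pi.single e 1) k) * F i e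
  have hP : ∀ (t : ℂ) (i k : ι), Polynomial.eval t (P i k) =
      L (fun e => Polynomial.eval t (F i e)) k := by
    intro t i k
    rw [hLe]
    simp only [P, Matrix.of_apply, Polynomial.eval_finset_sum, Polynomial.eval_mul,
      Polynomial.eval_C]
  have hdet : ∀ t : ℂ, Polynomial.eval t P.det =
      (Matrix.of fun i k => Polynomial.eval t (P i k)).det := by
    intro t
    have := RingHom.map_det (Polynomial.evalRingHom t) P
    rw [Polynomial.coe_evalRingHom] at this
    rw [this]
    rfl
  have h0 : Polynomial.eval 0 P.det = 1 := by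
    rw [hdet]
    have h1 : (Matrix.of fun i k => Polynomial.eval 0 (P i k)) = (1 : Matrix ι ι ℂ) := by
      ext i k
      rw [Matrix.of_apply, hP]
      have h2 : Φ (Pi.single i 1) = fun e => Polynomial.eval 0 (F i e) := by
        show ∑ j, (Pi.single i 1 : ι → ℂ) j • (fun e => Polynomial.eval 0 (F j e)) = _
        rw [sum_eq_single i]
        · rw [Pi.single_eq_same, one_smul]
        · intro j _ hj
          rw [Pi.single_eq_of_ne hj, zero_smul]
        · intro h2
          exact absurd (mem_univ i) h2
      rw [← h2]
      have h3 : L (Φ (Pi.single i 1)) = Pi.single i 1 := DFunLike.congr_fun hL (Pi.single i 1)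
      rw [h3, Matrix.one_apply]
      by_cases hik : i = k
      · subst hik
        simp
      · rw [if_neg hik, Pi.single_eq_of_ne (Ne.symm hik)]
    rw [h1, Matrix.det_one]
  have hne : Polynomial.X * P.det ≠ 0 := by
    refine mul_ne_zero Polynomial.X_ne_zero ?_
    intro h1
    rw [h1, Polynomial.eval_zero] at h0
    exact zero_ne_one h0
  obtain ⟨t, ht⟩ : ∃ t : ℂ, Polynomial.eval t (Polynomial.X * P.det) ≠ 0 := by
    by_contra hcon
    push Not at hcon
    exact hne (Polynomial.funext fun t => by rw [hcon t, Polynomial.eval_zero])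
  rw [Polynomial.eval_mul, Polynomial.eval_X] at ht
  refine ⟨t, left_ne_zero_of_mul ht, ?_⟩
  have ht' := right_ne_zero_of_mul ht
  rw [hdet] at ht'
  rw [Fintype.linearIndependent_iff]
  intro c hc
  have h1 : Matrix.vecMul c (Matrix.of fun i k => Polynomial.eval t (P i k)) = 0 := by
    funext k
    have h2 := congrFun (congrArg L hc) k
    rw [map_sum, Finset.sum_apply, map_zero] at h2
    refine Eq.trans ?_ h2
    rw [Matrix.vecMul, dotProduct]
    refine sum_congr rfl fun i _ => ?_
    rw [Matrix.of_apply, hP, map_smul, Pi.smul_apply, smul_eq_mul]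
  exact congrFun (Matrix.eq_zero_of_vecMul_eq_zero ht' h1)

/-- Limits of vectors in a family of spaces whose dimension does not exceed the one at `0`. -/
theorem fam_lim {E ι : Type} [Fintype E] [Finite ι] (R : ι → E → Polynomial ℂ)
    (g : E → Polynomial ℂ)
    (h1 : ∀ t : ℂ, t ≠ 0 → (fun e => Polynomial.eval t (g e)) ∈
      Submodule.span ℂ (Set.range fun i e => Polynomial.eval t (R i e)))
    (h2 : ∀ t : ℂ, Module.finrank ℂ
        (Submodule.span ℂ (Set.range fun i e => Polynomial.eval t (R i e))) ≤
      Module.finrank ℂ (Submodule.span ℂ (Set.range fun i e => Polynomial.eval 0 (R i e)))) :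
    (fun e => Polynomial.eval 0 (g e)) ∈
      Submodule.span ℂ (Set.range fun i e => Polynomial.eval 0 (R i e)) := by
  classical
  by_contra hg
  obtain ⟨κ, a, ha, hspan, hli⟩ := exists_linearIndependent' ℂ
    (fun i (e : E) => Polynomial.eval 0 (R i e))
  have : Finite κ := Finite.of_injective a ha
  let _ : Fintype κ := Fintype.ofFinite κ
  rw [← hspan] at hg
  have h3 := hli.option hg
  let F : Option κ → E → Polynomial ℂ := fun o => Option.casesOn' o g fun x => R (a x)
  have h4 : (fun o : Option κ => Option.casesOn' o (fun e => Polynomial.eval 0 (g e))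
      ((fun i (e : E) => Polynomial.eval 0 (R i e)) ∘ a)) =
      fun o e => Polynomial.eval 0 (F o e) := by
    funext o
    cases o <;> rfl
  rw [h4] at h3
  obtain ⟨t, ht, hti⟩ := indep_near F h3
  -- the vectors lie in the space at `t`
  let S := Submodule.span ℂ (Set.range fun i (e : E) => Polynomial.eval t (R i e))
  have h5 : ∀ o, (fun e => Polynomial.eval t (F o e)) ∈ S := by
    intro o
    cases o with
    | none => exact h1 t ht
    | some x => exact Submodule.subset_span ⟨a x, rfl⟩
  let v : Option κ → S := fun o => ⟨_, h5 o⟩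
  have h6 : LinearIndependent ℂ v := by
    apply LinearIndependent.of_comp S.subtype
    exact hti
  have h7 := h6.fintype_card_le_finrank
  have h8 : Module.finrank ℂ (Submodule.span ℂ
      (Set.range fun i (e : E) => Polynomial.eval 0 (R i e))) = Fintype.card κ := by
    rw [← hspan]
    exact finrank_span_eq_card hli
  have h9 : Module.finrank ℂ S ≤ _ := h2 t
  rw [h8] at h9
  rw [Fintype.card_option] at h7
  omega

end Pool.Agent.XD
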