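import Pool.Agent.XD.Subst
import Pool.Agent.XD.Fam
import Pool.Agent.H21.NX.Conv

/-!
# Project XD: the leading exponents are Borel-closed
-/

set_option autoImplicit false

namespace Pool.Agent.XD

open Finset MvPolynomial Pool.Agent.H18.Fat Pool.Agent.H21.NX

open Classical in
/-- The exponents of degree `d` below `v`. -/
noncomputable def bel {n : ℕ} (d : ℕ) (v : Fin n →₀ ℕ) : Finset (Fin n →₀ ℕ) :=
  (mons n d).filter fun u => clt u v

theorem mem_bel {n d : ℕ} {u v : Fin n →₀ ℕ} : u ∈ bel d v ↔ u ∈ mons n d ∧ clt u v := by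
  classical
  unfold bel
  simp only [mem_filter]

theorem bel_subset {n d : ℕ} (v : Fin n →₀ ℕ) : bel d v ⊆ mons n d :=
  fun _ hu => (mem_bel.1 hu).1

private theorem Borel_inv {n : ℕ} {i k : Fin n} (hik : i ≠ k) (t : ℂ) :
    Matrix.transvection i k (-t) * Matrix.transvection i k t = (1 : Matrix (Fin n) (Fin n) ℂ) := by
  rw [Matrix.transvection_mul_transvection_same i k hik, neg_add_cancel,
    Matrix.transvection_zero]

theorem borel {r j : ℕ} {κ : Type} (m : κ → ℕ) (p : κ → Fin (r + 1) → ℂ)
    (hp : ∀ v ∈ mons (r + 1) j, ∀ p' : κ → Fin (r + 1) → ℂ,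
      Module.finrank ℂ (fatForms r j p m ⊓ sup (bel j v) :
        Submodule ℂ (MvPolynomial (Fin (r + 1)) ℂ)) ≤
      Module.finrank ℂ (fatForms r j p' m ⊓ sup (bel j v) :
        Submodule ℂ (MvPolynomial (Fin (r + 1)) ℂ)))
    {w v : Fin (r + 1) →₀ ℕ} (hw : w ∈ Ld j (fatForms r j p m)) {i k : Fin (r + 1)} (hik : i < k)
    (h : w + Finsupp.single k 1 = v + Finsupp.single i 1) : v ∈ Ld j (fatForms r j p m) := by
  classical
  have hne : k ≠ i := ne_of_gt hik
  obtain ⟨hwd, F, hF, hFw, hFu⟩ := mem_Ld.1 hw
  have hvd : v ∈ mons (r + 1) j := by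
    rw [mem_mons] at hwd ⊢
    have h1 := congrArg Finsupp.degree h
    rw [map_add, map_add, Finsupp.degree_single, Finsupp.degree_single] at h1
    omega
  have hwv : clt w v := by
    refine ⟨k, ?_, fun x hx => ?_⟩
    · have h1 := DFunLike.congr_fun h k
      rw [Finsupp.add_apply, Finsupp.add_apply, Finsupp.single_eq_same,
        Finsupp.single_eq_of_ne hne] at h1
      omega
    · have h1 := DFunLike.congr_fun h x
      rw [Finsupp.add_apply, Finsupp.add_apply, Finsupp.single_eq_of_ne (ne_of_gt hx),
        Finsupp.single_eq_of_ne (ne_of_gt (hik.trans hx))] at h1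
      omega
  have hwi : 1 ≤ w i := by
    have h1 := DFunLike.congr_fun h i
    rw [Finsupp.add_apply, Finsupp.add_apply, Finsupp.single_eq_same,
      Finsupp.single_eq_of_ne (ne_of_lt hik)] at h1
    omega
  let E : Type := {u // u ∈ (mons (r + 1) j).filter fun u => u = v ∨ clt v u}
  let _ : Fintype E := inferInstanceAs
    (Fintype {u // u ∈ (mons (r + 1) j).filter fun u => u = v ∨ clt v u})
  have hE : ∀ e : E, e.1 ∉ bel j v := by
    intro e he
    have h1 := (mem_bel.1 he).2
    rcases (mem_filter.1 e.2).2 with h2 | h2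
    · rw [h2] at h1
      exact clt_irrefl _ h1
    · exact clt_irrefl _ (clt_trans h1 h2)
  let W := fatForms r j p m
  have hfin : Module.Finite ℂ W := ConvX.finite_fat' (d := j) p m
  let b := Module.finBasis ℂ W
  let R : Fin (Module.finrank ℂ W) → E → Polynomial ℂ := fun a e => Tp i k (b a).1 e.1
  let g : E → Polynomial ℂ := fun e => (Tp i k F e.1).divX
  let Ψ : ℂ → (W →ₗ[ℂ] (E → ℂ)) := fun t =>
    { toFun := fun G e => coeff e.1 (linSubst (Matrix.transvection i k t) G.1)
      map_add' := fun G G' => by
        funext e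
        rw [Submodule.coe_add, map_add, coeff_add]
        rfl
      map_smul' := fun c G => by
        funext e
        rw [Submodule.coe_smul, map_smul, coeff_smul]
        rfl }
  have hΨ : ∀ t (G : W) (e : E), Ψ t G e = Polynomial.eval t (Tp i k G.1 e.1) := by
    intro t G e
    rw [eval_Tp hne]
    rfl
  have hrange : ∀ t, Submodule.span ℂ (Set.range fun a (e : E) => Polynomial.eval t (R a e)) =
      LinearMap.range (Ψ t) := by
    intro t
    have h1 : (fun a (e : E) => Polynomial.eval t (R a e)) = fun a => Ψ t (b a) := by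
      funext a e
      rw [hΨ]
    rw [h1]
    have h2 : Set.range (fun a => Ψ t (b a)) = Ψ t '' Set.range b := by
      rw [← Set.range_comp]
      rfl
    rw [h2, Submodule.span_image, b.span_eq, LinearMap.range_eq_map]
  -- the dimensions of the kernels
  have hker0 : Module.finrank ℂ (LinearMap.ker (Ψ 0)) ≤
      Module.finrank ℂ (fatForms r j p m ⊓ sup (bel j v) :
        Submodule ℂ (MvPolynomial (Fin (r + 1)) ℂ)) := by
    let f : LinearMap.ker (Ψ 0) →ₗ[ℂ] (fatForms r j p m ⊓ sup (bel j v) :
        Submodule ℂ (MvPolynomial (Fin (r + 1)) ℂ)) :=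
      { toFun := fun G => ⟨G.1.1, G.1.2, fun α hα => by
          by_cases hαd : α ∈ mons (r + 1) j
          · have h1 : α = v ∨ clt v α := by
              rcases clt_trichotomy hαd hvd with h2 | h2 | h2
              · exact absurd (mem_bel.2 ⟨hαd, h2⟩) hα
              · exact Or.inl h2
              · exact Or.inr h2
            have h2 := congrFun G.2 ⟨α, mem_filter.2 ⟨hαd, h1⟩⟩
            have h3 : coeff α (linSubst (Matrix.transvection i k 0) G.1.1) = 0 := h2
            rwa [Matrix.transvection_zero, linSubst_one] at h3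
          · rw [mem_mons] at hαd
            exact G.1.2.1.coeff_eq_zero hαd⟩
        map_add' := fun G G' => rfl
        map_smul' := fun c G => rfl }
    have : Module.Finite ℂ (fatForms r j p m ⊓ sup (bel j v) :
        Submodule ℂ (MvPolynomial (Fin (r + 1)) ℂ)) :=
      Module.Finite.of_injective (Submodule.inclusion inf_le_left)
        (Submodule.inclusion_injective _)
    refine LinearMap.finrank_le_finrank_of_injective (f := f) ?_
    intro G G' hG
    have h5 : G.1.1 = G'.1.1 := congrArg (fun x => x.1) hG
    exact Subtype.ext (Subtype.ext h5)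
  have hkert : ∀ t, Module.finrank ℂ (fatForms r j
      (fun s => (Matrix.transvection i k (-t)).mulVec (p s)) m ⊓ sup (bel j v) :
        Submodule ℂ (MvPolynomial (Fin (r + 1)) ℂ)) ≤
      Module.finrank ℂ (LinearMap.ker (Ψ t)) := by
    intro t
    have h1 : ∀ H : MvPolynomial (Fin (r + 1)) ℂ,
        linSubst (Matrix.transvection i k t) (linSubst (Matrix.transvection i k (-t)) H) = H := by
      intro H
      rw [linSubst_comp, Borel_inv (ne_of_lt hik), linSubst_one]
    let f : (fatForms r j (fun s => (Matrix.transvection i k (-t)).mulVec (p s)) m ⊓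
        sup (bel j v) : Submodule ℂ (MvPolynomial (Fin (r + 1)) ℂ)) →ₗ[ℂ]
        LinearMap.ker (Ψ t) :=
      { toFun := fun H => ⟨⟨linSubst (Matrix.transvection i k (-t)) H.1,
          linSubst_isHomogeneous _ H.2.1.1, fun s => vanishes_linSubst (H.2.1.2 s)⟩, by
            rw [LinearMap.mem_ker]
            funext e
            show coeff e.1 (linSubst (Matrix.transvection i k t)
              (linSubst (Matrix.transvection i k (-t)) H.1)) = 0
            rw [h1]
            exact H.2.2 e.1 (hE e)⟩
        map_add' := fun H H' => by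
          apply Subtype.ext
          apply Subtype.ext
          exact map_add (linSubst (Matrix.transvection i k (-t))) _ _
        map_smul' := fun c H => by
          apply Subtype.ext
          apply Subtype.ext
          exact map_smul (linSubst (Matrix.transvection i k (-t))) _ _ }
    refine LinearMap.finrank_le_finrank_of_injective (f := f) ?_
    intro H H' hH
    have h2 : linSubst (Matrix.transvection i k (-t)) H.1 =
        linSubst (Matrix.transvection i k (-t)) H'.1 :=
      congrArg (fun x : LinearMap.ker (Ψ t) => x.1.1) hH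
    have h3 := congrArg (linSubst (Matrix.transvection i k t)) h2
    rw [h1, h1] at h3
    exact Subtype.ext h3
  -- the limit
  have hlim := fam_lim R g (by
    intro t ht
    rw [hrange]
    refine ⟨t⁻¹ • ⟨F, hF⟩, ?_⟩
    funext e
    rw [map_smul, Pi.smul_apply, hΨ, smul_eq_mul]
    have h1 := congrArg (Polynomial.eval t) (Polynomial.divX_mul_X_add (Tp i k F e.1))
    have h2 : (Tp i k F e.1).coeff 0 = 0 := by
      rw [Tp_zero]
      rcases (mem_filter.1 e.2).2 with h2 | h2
      · rw [h2]
        exact hFu v hwv
      · exact hFu e.1 (clt_trans hwv h2)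
    rw [h2, Polynomial.C_0, add_zero, Polynomial.eval_mul, Polynomial.eval_X] at h1
    show t⁻¹ * Polynomial.eval t (Tp i k F e.1) = Polynomial.eval t (Tp i k F e.1).divX
    rw [← h1]
    field_simp) (by
    intro t
    rw [hrange, hrange]
    have h1 := LinearMap.finrank_range_add_finrank_ker (Ψ t)
    have h2 := LinearMap.finrank_range_add_finrank_ker (Ψ 0)
    have h3 := hp v hvd fun s => (Matrix.transvection i k (-t)).mulVec (p s)
    have h4 := hkert t
    omega)
  rw [hrange] at hlim
  obtain ⟨G, hG⟩ := hlim
  have hGe : ∀ e : E, coeff e.1 G.1 = (Tp i k F e.1).coeff 1 := by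
    intro e
    have h1 := congrFun hG e
    have h2 : coeff e.1 (linSubst (Matrix.transvection i k 0) G.1) =
        Polynomial.eval 0 (Tp i k F e.1).divX := h1
    rw [Matrix.transvection_zero, linSubst_one] at h2
    rw [h2, ← Polynomial.coeff_zero_eq_eval_zero, Polynomial.coeff_divX]
  rw [mem_Ld]
  refine ⟨hvd, G.1, G.2, ?_, fun u hu => ?_⟩
  · rw [hGe ⟨v, mem_filter.2 ⟨hvd, Or.inl rfl⟩⟩, Tp_one hne F v w h]
    refine mul_ne_zero hFw ?_
    rw [Nat.cast_ne_zero]
    omega
  · by_cases hud : u ∈ mons (r + 1) j
    · rw [hGe ⟨u, mem_filter.2 ⟨hud, Or.inr hu⟩⟩]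
      show (Tp i k F u).coeff 1 = 0
      by_cases huk : u k = 0
      · exact Tp_one' F u huk
      · -- `u' + e_k = u + e_i`
        let u' : Fin (r + 1) →₀ ℕ := u + Finsupp.single i 1 - Finsupp.single k 1
        have hu' : u' + Finsupp.single k 1 = u + Finsupp.single i 1 := by
          apply tsub_add_cancel_of_le
          rw [Finsupp.single_le_iff]
          rw [Finsupp.add_apply]
          omega
        rw [Tp_one hne F u u' hu']
        have h1 : clt w u' := by
          rw [← clt_add_iff (Finsupp.single k 1), hu', h, clt_add_iff]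
          exact hu
        rw [hFu u' h1, zero_mul]
    · rw [mem_mons] at hud
      exact G.2.1.coeff_eq_zero hud

end Pool.Agent.XD
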