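import Pool.Agent.XD.Sys
import Pool.Agent.H21.HD.BridgeC

/-!
# Project XD: fewer variables, the coordinate point, derivatives
-/

set_option autoImplicit false

namespace Pool.Agent.XD

open Finset MvPolynomial Pool.Agent.H18.Fat Pool.Agent.H21.NX Pool.Agent.H51.TB

/-! ### Fewer variables -/

/-- The exponents of degree `j` in the first `i + 1` variables. -/
noncomputable def Lv (r j i : ℕ) : Finset (Fin (r + 1) →₀ ℕ) := by
  classical
  exact (mons (r + 1) j).filter fun v => ∀ l : Fin (r + 1), i < l.1 → v l = 0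

theorem mem_Lv {r j i : ℕ} {v : Fin (r + 1) →₀ ℕ} :
    v ∈ Lv r j i ↔ v ∈ mons (r + 1) j ∧ ∀ l : Fin (r + 1), i < l.1 → v l = 0 := by
  classical
  unfold Lv
  rw [mem_filter]

private theorem Vars_shift_rename {n n' : ℕ} (c : Fin n' → Fin n) (q : Fin n → ℂ)
    (F : MvPolynomial (Fin n') ℂ) :
    shift q (rename c F) = rename c (shift (fun x => q (c x)) F) := by
  unfold shift
  rw [aeval_rename]
  have h : (aeval ((fun j => X j + C (q j)) ∘ c) :
      MvPolynomial (Fin n') ℂ →ₐ[ℂ] MvPolynomial (Fin n) ℂ) =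
      (rename c).comp (aeval fun j => X j + C (q (c j))) := by
    apply algHom_ext
    intro x
    rw [AlgHom.comp_apply, aeval_X, aeval_X, map_add, rename_X, rename_C]
    rfl
  exact DFunLike.congr_fun h F

private theorem Vars_vanish {n n' : ℕ} {c : Fin n' → Fin n} (hc : Function.Injective c)
    (q : Fin n → ℂ) (F : MvPolynomial (Fin n') ℂ) (m : ℕ) :
    VanishesToOrder (rename c F) q m ↔ VanishesToOrder F (fun x => q (c x)) m := by
  unfold VanishesToOrder
  rw [Vars_shift_rename]
  constructor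
  · intro h β hβ
    have h1 := h (Finsupp.mapDomain c β) (by rw [Finsupp.degree_mapDomain]; exact hβ)
    rwa [coeff_rename_mapDomain c hc] at h1
  · intro h β hβ
    by_contra hne
    obtain ⟨u, hu, hu0⟩ := coeff_rename_ne_zero c _ β hne
    apply hu0
    refine h u ?_
    rw [← hu, Finsupp.degree_mapDomain] at hβ
    exact hβ

theorem finrank_Lv {r j i : ℕ} (hi : i ≤ r) {κ : Type} (m : κ → ℕ) (p : κ → Fin (r + 1) → ℂ) :
    Module.finrank ℂ (fatForms r j p m ⊓ sup (Lv r j i) :
      Submodule ℂ (MvPolynomial (Fin (r + 1)) ℂ)) =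
      Module.finrank ℂ (fatForms i j (fun s x => p s (Fin.castLE (by omega) x)) m) := by
  classical
  let c : Fin (i + 1) → Fin (r + 1) := Fin.castLE (by omega)
  have hc : Function.Injective c := Fin.castLE_injective _
  have h3 : (fatForms i j (fun s x => p s (Fin.castLE (by omega) x)) m).map
      (rename c).toLinearMap = fatForms r j p m ⊓ sup (Lv r j i) := by
    ext F
    constructor
    · rintro ⟨G, hG, rfl⟩
      refine ⟨⟨hG.1.rename_isHomogeneous, fun s => ?_⟩, fun α hα => ?_⟩
      · exact (Vars_vanish hc (p s) G (m s)).2 (hG.2 s)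
      · by_contra hne
        obtain ⟨u, hu, hu0⟩ := coeff_rename_ne_zero c _ α hne
        apply hα
        rw [mem_Lv, mem_mons]
        refine ⟨?_, fun l hl => ?_⟩
        · rw [← hu, Finsupp.degree_mapDomain]
          by_contra h1
          exact hu0 (hG.1.coeff_eq_zero h1)
        · rw [← hu]
          apply Finsupp.mapDomain_notin_range
          rintro ⟨x, hx⟩
          rw [← hx] at hl
          have h1 : (c x).1 = x.1 := rfl
          omega
    · rintro ⟨hF1, hF2⟩
      obtain ⟨G, hG⟩ := exists_rename_eq_of_vars_subset_range F c hc (by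
        intro l hl
        rw [mem_coe, mem_vars] at hl
        obtain ⟨α, hα, hl⟩ := hl
        have h1 : α ∈ Lv r j i := by
          by_contra h1
          exact (mem_support_iff.1 hα) (hF2 α h1)
        have h2 := (mem_Lv.1 h1).2 l
        have h3 : l.1 ≤ i := by
          by_contra h3
          exact (Finsupp.mem_support_iff.1 hl) (h2 (by omega))
        exact ⟨⟨l.1, by omega⟩, Fin.ext rfl⟩)
      refine ⟨G, ⟨?_, fun s => ?_⟩, hG⟩
      · rw [← IsHomogeneous.rename_isHomogeneous_iff hc, hG]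
        exact hF1.1
      · refine (Vars_vanish hc (p s) G (m s)).1 ?_
        rw [hG]
        exact hF1.2 s
  rw [← h3]
  exact ((Submodule.equivMapOfInjective _ (rename_injective c hc) _).finrank_eq).symm

/-! ### The coordinate point -/

private theorem Vars_le {n d : ℕ} {α : Fin n →₀ ℕ} (hα : α ∈ mons n d) (l : Fin n) :
    α l ≤ d := by
  rw [mem_mons, Finsupp.degree_eq_sum] at hα
  rw [← hα]
  exact single_le_sum (fun _ _ => Nat.zero_le _) (mem_univ l)

/-- The exponents of degree `d` with last exponent less than `c`. -/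
noncomputable def Lc (r d c : ℕ) : Finset (Fin (r + 1) →₀ ℕ) := by
  classical
  exact (mons (r + 1) d).filter fun v => v (Fin.last r) < c

theorem mem_Lc {r d c : ℕ} {v : Fin (r + 1) →₀ ℕ} :
    v ∈ Lc r d c ↔ v ∈ mons (r + 1) d ∧ v (Fin.last r) < c := by
  classical
  unfold Lc
  rw [mem_filter]

theorem fat_last {r d c : ℕ} (hc : 1 ≤ c) {κ : Type} (m : κ → ℕ)
    (p : κ → Fin (r + 1) → ℂ) :
    fatForms r d (Sum.elim p fun _ : Unit => (Pi.single (Fin.last r) 1 : Fin (r + 1) → ℂ))
      (Sum.elim m fun _ : Unit => d + 1 - c) = fatForms r d p m ⊓ sup (Lc r d c) := by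
  classical
  ext F
  constructor
  · intro hF
    refine ⟨⟨hF.1, fun s => hF.2 (Sum.inl s)⟩, fun α hα => ?_⟩
    by_contra hne
    have hαd : α ∈ mons (r + 1) d := by
      rw [mem_mons]
      by_contra h1
      exact hne (hF.1.coeff_eq_zero h1)
    have h1 := hF.2 (Sum.inr ())
    have h1' : VanishesToOrder F (Pi.single (Fin.last r) 1) (d + 1 - c) := h1
    rw [← exists_toPoly hF.1, vanishes_coord_iff] at h1'
    have h2 := h1' ⟨α, hαd⟩ hne
    apply hα
    rw [mem_Lc]
    refine ⟨hαd, ?_⟩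
    have h3 : α (Fin.last r) + (d + 1 - c) ≤ d := h2
    have h4 := Vars_le hαd (Fin.last r)
    omega
  · rintro ⟨hF1, hF2⟩
    refine ⟨hF1.1, fun s => ?_⟩
    rcases s with s | s
    · exact hF1.2 s
    · show VanishesToOrder F (Pi.single (Fin.last r) 1) (d + 1 - c)
      rw [← exists_toPoly hF1.1, vanishes_coord_iff]
      intro α hα
      have h1 : α.1 ∈ Lc r d c := by
        by_contra h1
        exact hα (hF2 α.1 h1)
      have h2 := (mem_Lc.1 h1).2
      have h3 := Vars_le α.2 (Fin.last r)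
      omega

/-- Moving a point with nonzero last coordinate to the last coordinate point. -/
private theorem Vars_move {n : ℕ} (l : Fin n) (q : Fin n → ℂ) (hq : q l ≠ 0) :
    ∃ A B : Matrix (Fin n) (Fin n) ℂ, A * B = 1 ∧ A.mulVec q = Pi.single l 1 := by
  classical
  let b : Fin n → ℂ := q - Pi.single l 1
  let A : Matrix (Fin n) (Fin n) ℂ := 1 - Matrix.vecMulVec ((q l)⁻¹ • b) (Pi.single l 1)
  let B : Matrix (Fin n) (Fin n) ℂ := 1 + Matrix.vecMulVec b (Pi.single l 1)
  have hA : ∀ x : Fin n → ℂ, A.mulVec x = x - (x l * (q l)⁻¹) • b := by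
    intro x
    have h1 : (Matrix.vecMulVec ((q l)⁻¹ • b) (Pi.single l 1 : Fin n → ℂ)).mulVec x =
        (x l * (q l)⁻¹) • b := by
      rw [Matrix.vecMulVec_mulVec]
      funext i
      simp
      ring
    rw [Matrix.sub_mulVec, Matrix.one_mulVec, h1]
  have hB : ∀ x : Fin n → ℂ, B.mulVec x = x + x l • b := by
    intro x
    have h1 : (Matrix.vecMulVec b (Pi.single l 1 : Fin n → ℂ)).mulVec x = x l • b := by
      rw [Matrix.vecMulVec_mulVec]
      funext i
      simp
      ring
    rw [Matrix.add_mulVec, Matrix.one_mulVec, h1]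
  have hbl : b l = q l - 1 := by
    simp [b]
  refine ⟨A, B, ?_, ?_⟩
  · apply Matrix.mulVec_injective
    funext x
    rw [← Matrix.mulVec_mulVec, Matrix.one_mulVec, hA, hB]
    have h1 : (x + x l • b) l * (q l)⁻¹ = x l := by
      rw [Pi.add_apply, Pi.smul_apply, hbl, smul_eq_mul]
      field_simp
      ring
    rw [h1]
    abel
  · rw [hA, mul_inv_cancel₀ hq, one_smul]
    simp [b]

/-- The dimension with a further general point of multiplicity `d + 1 - c`. -/
theorem exists_last {r d c : ℕ} (hc : 1 ≤ c) {κ : Type} [Fintype κ] (m : κ → ℕ) :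
    ∃ p : κ → Fin (r + 1) → ℂ, Module.finrank ℂ (fatForms r d p m ⊓ sup (Lc r d c) :
      Submodule ℂ (MvPolynomial (Fin (r + 1)) ℂ)) =
      gdim r d (Sum.elim m fun _ : Unit => d + 1 - c) := by
  classical
  have h1 : Gn (κ ⊕ Unit) (Fin (r + 1)) fun p => p (Sum.inr ()) (Fin.last r) ≠ 0 :=
    ⟨X (Sum.inr (), Fin.last r), X_ne_zero _, fun p hp => by rwa [eval_X] at hp⟩
  have h2 : Gn (κ ⊕ Unit) (Fin (r + 1)) fun p => Module.finrank ℂ
      (fatForms r d p (Sum.elim m fun _ : Unit => d + 1 - c)) =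
      gdim r d (Sum.elim m fun _ : Unit => d + 1 - c) := gen_gdim r d _
  obtain ⟨p, hp1, hp2⟩ := (h1.and h2).exists
  obtain ⟨A, B, hAB, hA⟩ := Vars_move (Fin.last r) (p (Sum.inr ())) hp1
  refine ⟨fun s => A.mulVec (p (Sum.inl s)), ?_⟩
  have h3 : (Sum.elim (fun s => A.mulVec (p (Sum.inl s)))
      fun _ : Unit => (Pi.single (Fin.last r) 1 : Fin (r + 1) → ℂ)) = fun s => A.mulVec (p s) := by
    funext s
    rcases s with s | s
    · rfl
    · exact hA.symm
  rw [← fat_last hc, h3, ← hp2]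
  exact finrank_linSubst p _ hAB

/-! ### Derivatives -/

theorem pderiv_fat {r j : ℕ} {κ : Type} (e : κ → ℕ) (p : κ → Fin (r + 1) → ℂ)
    (i : Fin (r + 1)) {F : MvPolynomial (Fin (r + 1)) ℂ}
    (hF : F ∈ fatForms r (j + 1) p fun s => j + 1 + 1 - e s) :
    pderiv i F ∈ fatForms r j p fun s => j + 1 - e s := by
  refine ⟨?_, fun s β hβ => ?_⟩
  · have h1 := hF.1.pderiv (i := i)
    rwa [Nat.add_sub_cancel] at h1
  · rw [Pool.Agent.H21.HD.BridgeCX.shift_pderiv, coeff_pderiv]
    have hβ' : β.degree < j + 1 - e s := hβ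
    have h1 := hF.2 s (β + Finsupp.single i 1) (by
      rw [map_add, Finsupp.degree_single]
      show β.degree + 1 < j + 1 + 1 - e s
      omega)
    rw [h1, zero_mul]

/-- Divisors of leading exponents, one step. -/
theorem Ld_pderiv {r j : ℕ} {κ : Type} (e : κ → ℕ) (p : κ → Fin (r + 1) → ℂ)
    (i : Fin (r + 1)) {v : Fin (r + 1) →₀ ℕ}
    (hv : v + Finsupp.single i 1 ∈ Ld (j + 1) (fatForms r (j + 1) p fun s => j + 1 + 1 - e s)) :
    v ∈ Ld j (fatForms r j p fun s => j + 1 - e s) := by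
  obtain ⟨hvd, F, hF, hFv, hFu⟩ := mem_Ld.1 hv
  rw [mem_Ld]
  refine ⟨?_, pderiv i F, pderiv_fat e p i hF, ?_, fun u hu => ?_⟩
  · rw [mem_mons] at hvd ⊢
    rw [map_add, Finsupp.degree_single] at hvd
    omega
  · rw [coeff_pderiv]
    refine mul_ne_zero hFv ?_
    exact_mod_cast Nat.succ_ne_zero (v i)
  · rw [coeff_pderiv, hFu _ ((clt_add_iff _).2 hu), zero_mul]

end Pool.Agent.XD
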