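import Pool.Agent.XD.Defs
import Pool.Agent.XD.Borel
import Pool.Agent.XD.Vars

/-!
# XD, module G: general points and the standard coordinates

For general points (all ranks maximal) the leading positions (colex order) of the spaces `V_j(Γ)` of
coefficient vectors: `N j`.  Divisor closed, Borel closed, numbers.  See xd_proof.txt, (1).
-/

set_option autoImplicit false

namespace Pool.Agent.XD

open Finset MvPolynomial Pool.Agent.H18.Fat Pool.Agent.H21.NX Pool.Agent.H51.TB

/-- Pulling back along an injection of the coordinates. -/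
private theorem Coord_comap {κ ν ν' : Type} (c : ν' → ν) (hc : Function.Injective c)
    {P : (κ → ν' → ℂ) → Prop} (h : Gn κ ν' P) : Gn κ ν fun p => P fun s x => p s (c x) := by
  obtain ⟨G, hG, h⟩ := h
  have hinj : Function.Injective (fun x : κ × ν' => (x.1, c x.2)) := by
    intro x y hxy
    have h1 := congrArg Prod.fst hxy
    have h2 := congrArg Prod.snd hxy
    exact Prod.ext h1 (hc h2)
  refine ⟨rename (fun x : κ × ν' => (x.1, c x.2)) G, ?_, fun p hp => ?_⟩
  · intro h0
    apply hG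
    apply rename_injective _ hinj
    rw [h0, map_zero]
  · apply h
    rw [eval_rename] at hp
    exact hp

private theorem Coord_Lv {r j i : ℕ} : ∀ v ∈ Lv r j i, ∀ u ∈ mons (r + 1) j, clt u v →
    u ∈ Lv r j i := by
  intro v hv u hu ⟨x, hx, hx'⟩
  rw [mem_Lv] at hv ⊢
  refine ⟨hu, fun l hl => ?_⟩
  rcases lt_trichotomy x l with h | h | h
  · rw [hx' l h]
    exact hv.2 l hl
  · subst h
    have := hv.2 x hl
    omega
  · have h1 : l.1 < x.1 := h
    have := hv.2 x (by omega)
    omega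

private theorem Coord_Lc {r j c : ℕ} : ∀ v ∈ Lc r j c, ∀ u ∈ mons (r + 1) j, clt u v →
    u ∈ Lc r j c := by
  intro v hv u hu ⟨x, hx, hx'⟩
  rw [mem_Lc] at hv ⊢
  refine ⟨hu, ?_⟩
  rcases eq_or_lt_of_le (Fin.le_last x) with h | h
  · rw [h] at hx
    omega
  · rw [hx' _ h]
    exact hv.2

private theorem Coord_div {r : ℕ} {κ : Type} (e : κ → ℕ) (p : κ → Fin (r + 1) → ℂ)
    (u : Fin (r + 1) →₀ ℕ) : ∀ (n : ℕ) (v : Fin (r + 1) →₀ ℕ), u ≤ v → v.degree = u.degree + n →
    v ∈ Ld v.degree (fatForms r v.degree p fun s => v.degree + 1 - e s) →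
    u ∈ Ld u.degree (fatForms r u.degree p fun s => u.degree + 1 - e s) := by
  intro n
  induction n with
  | zero =>
    intro v huv hdeg hv
    have h1 : u = v := by
      have h2 : ∑ x, u x = ∑ x, v x := by
        rw [← Finsupp.degree_eq_sum, ← Finsupp.degree_eq_sum]
        omega
      ext x
      exact (sum_eq_sum_iff_of_le fun x _ => huv x).1 h2 x (mem_univ x)
    rw [h1]
    exact hv
  | succ n ih =>
    intro v huv hdeg hv
    obtain ⟨x, hx⟩ : ∃ x, u x < v x := by
      by_contra hcon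
      push Not at hcon
      have h1 : ∑ x, v x ≤ ∑ x, u x := sum_le_sum fun x _ => hcon x
      rw [← Finsupp.degree_eq_sum, ← Finsupp.degree_eq_sum] at h1
      omega
    let v' : Fin (r + 1) →₀ ℕ := v - Finsupp.single x 1
    have hv' : v' + Finsupp.single x 1 = v := by
      apply tsub_add_cancel_of_le
      rw [Finsupp.single_le_iff]
      omega
    have hd : v.degree = v'.degree + 1 := by
      rw [← hv', map_add, Finsupp.degree_single]
    refine ih v' ?_ (by omega) ?_
    · intro y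
      have h1 := huv y
      rw [← hv', Finsupp.add_apply, Finsupp.single_apply] at h1 hx
      by_cases hy : x = y
      · subst hy
        rw [if_pos rfl] at hx
        omega
      · rw [if_neg hy] at h1
        omega
    · apply Ld_pderiv e p x
      rw [hv', ← hd]
      exact hv

/-- General points and the standard coordinates; `n = r + 1` variables. -/
theorem gen_coord (r d : ℕ) {κ : Type} [Fintype κ] (e : κ → ℕ) (he : ∀ s, 1 ≤ e s) :
    ∃ N : ℕ → Finset (Fin (r + 1) → ℕ),
      (∀ j, ∀ v ∈ N j, ∑ i, v i = j) ∧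
      (∀ j ≤ d, ∀ v ∈ N j, ∀ u : Fin (r + 1) → ℕ, (∀ i, u i ≤ v i) → u ∈ N (∑ i, u i)) ∧
      (∀ j ≤ d, ∀ w ∈ N j, ∀ v : Fin (r + 1) → ℕ, ∀ i k, i < k → w i = v i + 1 → v k = w k + 1 →
        (∀ l, l ≠ i → l ≠ k → v l = w l) → v ∈ N j) ∧
      (∀ j ≤ d, ∀ i ≤ r, ((N j).filter fun v => ∀ l : Fin (r + 1), i < l.1 → v l = 0).card =
        gdim i j fun s => j + 1 - e s) ∧
      (∀ j ≤ d, ∀ c, 1 ≤ c → ((N j).filter fun v => v (Fin.last r) < c).card =
        gdim r j (Sum.elim (fun s => j + 1 - e s) fun _ : Unit => j + 1 - c)) := by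
  classical
  -- the conditions on the general points
  have hG1 : Gn κ (Fin (r + 1)) fun p => ∀ j ∈ range (d + 1), ∀ i ∈ range (r + 1),
      Module.finrank ℂ (fatForms r j p (fun s => j + 1 - e s) ⊓ sup (Lv r j i) :
        Submodule ℂ (MvPolynomial (Fin (r + 1)) ℂ)) = gdim i j fun s => j + 1 - e s := by
    refine Gn.all _ fun j _ => Gn.all _ fun i hi => ?_
    rw [mem_range] at hi
    have h1 : Gn κ (Fin (i + 1)) fun p => Module.finrank ℂ
        (fatForms i j p fun s => j + 1 - e s) = gdim i j fun s => j + 1 - e s :=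
      gen_gdim i j _
    refine (Coord_comap (Fin.castLE (by omega)) (Fin.castLE_injective _) h1).mono fun p hp => ?_
    rw [finrank_Lv (by omega)]
    exact hp
  have hG2 : Gn κ (Fin (r + 1)) fun p => ∀ j ∈ range (d + 1), ∀ v ∈ mons (r + 1) j,
      ∀ p' : κ → Fin (r + 1) → ℂ,
      Module.finrank ℂ (fatForms r j p (fun s => j + 1 - e s) ⊓ sup (bel j v) :
        Submodule ℂ (MvPolynomial (Fin (r + 1)) ℂ)) ≤
      Module.finrank ℂ (fatForms r j p' (fun s => j + 1 - e s) ⊓ sup (bel j v) :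
        Submodule ℂ (MvPolynomial (Fin (r + 1)) ℂ)) :=
    Gn.all _ fun j _ => Gn.all _ fun v _ => gn_sup _ _ (bel_subset v)
  have hG3 : Gn κ (Fin (r + 1)) fun p => ∀ j ∈ range (d + 1), ∀ c ∈ range (j + 2), 1 ≤ c →
      Module.finrank ℂ (fatForms r j p (fun s => j + 1 - e s) ⊓ sup (Lc r j c) :
        Submodule ℂ (MvPolynomial (Fin (r + 1)) ℂ)) =
      gdim r j (Sum.elim (fun s => j + 1 - e s) fun _ : Unit => j + 1 - c) := by
    refine Gn.all _ fun j _ => Gn.all _ fun c _ => ?_
    refine (gn_sup (fun s => j + 1 - e s) (Lc r j c)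
      (fun u hu => (mem_Lc.1 hu).1)).mono fun p hp hc => ?_
    apply le_antisymm
    · obtain ⟨p', hp'⟩ := exists_last (r := r) (d := j) hc fun s => j + 1 - e s
      rw [← hp']
      exact hp p'
    · rw [← fat_last hc]
      exact gdim_le _ _ _ _
  obtain ⟨p, ⟨hp1, hp2⟩, hp3⟩ := ((hG1.and hG2).and hG3).exists
  let W : ℕ → Submodule ℂ (MvPolynomial (Fin (r + 1)) ℂ) := fun j =>
    fatForms r j p fun s => j + 1 - e s
  have hW : ∀ j, ∀ F ∈ W j, F.IsHomogeneous j := fun j F hF => hF.1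
  let φ : (Fin (r + 1) →₀ ℕ) ↪ (Fin (r + 1) → ℕ) := ⟨fun v => ⇑v, DFunLike.coe_injective⟩
  let N : ℕ → Finset (Fin (r + 1) → ℕ) := fun j => (Ld j (W j)).map φ
  have hN : ∀ j (v : Fin (r + 1) →₀ ℕ), (⇑v : Fin (r + 1) → ℕ) ∈ N j ↔ v ∈ Ld j (W j) := by
    intro j v
    exact mem_map' φ
  have hNe : ∀ j, ∀ v ∈ N j, ∃ w ∈ Ld j (W j), (⇑w : Fin (r + 1) → ℕ) = v := by
    intro j v hv
    exact mem_map.1 hv
  have hcard : ∀ (j : ℕ) (P : (Fin (r + 1) → ℕ) → Prop) [DecidablePred P]
      (L : Finset (Fin (r + 1) →₀ ℕ)),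
      (∀ v : Fin (r + 1) →₀ ℕ, v ∈ L ↔ v ∈ mons (r + 1) j ∧ P ⇑v) →
      ((N j).filter P).card = ((Ld j (W j)).filter fun v => v ∈ L).card := by
    intro j P _ L hL
    have h1 : (N j).filter P =
        ((Ld j (W j)).filter fun v : Fin (r + 1) →₀ ℕ => P ⇑v).map φ := by
      rw [filter_map]
      rfl
    rw [h1, card_map]
    congr 1
    refine filter_congr fun v hv => ?_
    rw [hL]
    exact ⟨fun h => ⟨(mem_Ld.1 hv).1, h⟩, fun h => h.2⟩
  refine ⟨N, ?_, ?_, ?_, ?_, ?_⟩
  · intro j v hv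
    obtain ⟨w, hw, rfl⟩ := hNe j v hv
    rw [← Finsupp.degree_eq_sum]
    exact mem_mons.1 (mem_Ld.1 hw).1
  · intro j hj v hv u hu
    obtain ⟨w, hw, rfl⟩ := hNe j v hv
    have hwd : w.degree = j := mem_mons.1 (mem_Ld.1 hw).1
    let u' : Fin (r + 1) →₀ ℕ := Finsupp.equivFunOnFinite.symm u
    have hu' : (⇑u' : Fin (r + 1) → ℕ) = u := rfl
    have hle : u' ≤ w := hu
    have hdle : u'.degree ≤ w.degree := by
      rw [Finsupp.degree_eq_sum, Finsupp.degree_eq_sum]
      exact sum_le_sum fun x _ => hu x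
    have h1 := Coord_div e p u' (w.degree - u'.degree) w hle (by omega) (by
      rw [hwd]
      exact hw)
    have h2 : ∑ i, u i = u'.degree := by
      rw [Finsupp.degree_eq_sum]
      rfl
    rw [h2, ← hu', hN]
    exact h1
  · intro j hj w hw v i k hik h1 h2 h3
    obtain ⟨w', hw', rfl⟩ := hNe j w hw
    let v' : Fin (r + 1) →₀ ℕ := Finsupp.equivFunOnFinite.symm v
    have hv' : (⇑v' : Fin (r + 1) → ℕ) = v := rfl
    rw [← hv', hN]
    refine borel _ p (hp2 j (mem_range.2 (by omega))) hw' hik ?_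
    ext x
    rw [Finsupp.add_apply, Finsupp.add_apply, Finsupp.single_apply, Finsupp.single_apply]
    show w' x + _ = v x + _
    by_cases hxi : i = x
    · subst hxi
      rw [if_neg (ne_of_gt hik), if_pos rfl]
      omega
    · by_cases hxk : k = x
      · subst hxk
        rw [if_pos rfl, if_neg hxi]
        omega
      · rw [if_neg hxi, if_neg hxk, h3 x (Ne.symm hxi) (Ne.symm hxk)]
  · intro j hj i hi
    have h1 := hcard j (fun v => ∀ l : Fin (r + 1), i < l.1 → v l = 0) (Lv r j i)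
      fun v => mem_Lv
    refine h1.trans ?_
    rw [card_Ld (W j) (hW j) _ Coord_Lv (fun u hu => (mem_Lv.1 hu).1)]
    exact hp1 j (mem_range.2 (by omega)) i (mem_range.2 (by omega))
  · intro j hj c hc
    have h0 := hcard j (fun v => v (Fin.last r) < c) (Lc r j c) fun v => mem_Lc
    refine h0.trans ?_
    rw [card_Ld (W j) (hW j) _ Coord_Lc (fun u hu => (mem_Lc.1 hu).1)]
    rcases le_or_gt c (j + 1) with h | h
    · exact hp3 j (mem_range.2 (by omega)) c (mem_range.2 (by omega)) hc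
    · have h1 : Lc r j c = Lc r j (j + 1) := by
        ext u
        rw [mem_Lc, mem_Lc]
        refine and_congr_right fun hu => ?_
        rw [mem_mons, Finsupp.degree_eq_sum] at hu
        have h2 : u (Fin.last r) ≤ ∑ x, u x :=
          single_le_sum (fun _ _ => Nat.zero_le _) (mem_univ _)
        omega
      have h2 : j + 1 - c = j + 1 - (j + 1) := by omega
      rw [h1, h2]
      exact hp3 j (mem_range.2 (by omega)) (j + 1) (mem_range.2 (by omega)) (by omega)

end Pool.Agent.XD
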