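import Pool.Agent.H21.NX.GenB
import Pool.Agent.H21.HD.Defs

/-!
# Project XD: the exact dimension off the layer, any number of large points (definitions)

Exponents `e t ≥ 1` (`t = 0, 1, …`), `m` variables, degree `j`:

* `A e m t j` is the coefficient of `t^j` in `∏_{i < t} (1 - t^{e i}) / (1 - t)^m`;
* `FF e m t j` is the dimension of the degree `j` part of `ℂ[x_1..x_m]/(L_s^{e s}, s < t)`, general `L_s`;
* monomials are multisets of indices of variables `0, …, m - 1`; `lay N i j` are the monomials of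
  degree `j` of `N` in the variables `< i`;
* `Stair m d N f`: `N` is closed under divisors and under the moves `a → b`, `a < b < m`, and has
  `f i j` elements of degree `j ≤ d` in the variables `< i`, `i ≤ m`;
* `Sys d e F`: what the algebra gives for `F = FF e`.
-/

set_option autoImplicit false

namespace Pool.Agent.XD

open Finset Pool.Agent.H21.NX

/-! ### Numbers -/

/-- The coefficient of `t^j` in `∏_{i < t} (1 - t^{e i}) / (1 - t)^m`. -/
def A (e : ℕ → ℕ) (m : ℕ) : ℕ → ℕ → ℤ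
  | 0, j => (Nat.multichoose m j : ℤ)
  | t + 1, j => A e m t j - if e t ≤ j then A e m t (j - e t) else 0

/-! ### Combinatorics -/

/-- The multisets of `N` with `j` elements, all `< i`. -/
def lay (N : Finset (Multiset ℕ)) (i j : ℕ) : Finset (Multiset ℕ) :=
  N.filter fun v => Multiset.card v = j ∧ ∀ x ∈ v, x < i

theorem mem_lay {N : Finset (Multiset ℕ)} {i j : ℕ} {v : Multiset ℕ} :
    v ∈ lay N i j ↔ v ∈ N ∧ Multiset.card v = j ∧ ∀ x ∈ v, x < i := by
  unfold lay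
  rw [mem_filter]

/-- `N` is the set of standard monomials of a Borel fixed ideal, with the numbers `f i j`. -/
structure Stair (m d : ℕ) (N : Finset (Multiset ℕ)) (f : ℕ → ℕ → ℕ) : Prop where
  /-- the variables are `0, …, m - 1` -/
  lt : ∀ v ∈ N, ∀ x ∈ v, x < m
  /-- closed under divisors -/
  div : ∀ v ∈ N, ∀ u, u ≤ v → u ∈ N
  /-- closed under the moves `a → b`, `a < b` -/
  up : ∀ v ∈ N, ∀ a ∈ v, ∀ b, a < b → b < m → b ::ₘ v.erase a ∈ N
  /-- the numbers -/
  cnt : ∀ i ≤ m, ∀ j ≤ d, (lay N i j).card = f i j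

/-- The number of `v ∈ N` of degree `d - e` with `v y_{m-1}^e ∉ N`. -/
def kk (N : Finset (Multiset ℕ)) (m d e : ℕ) : ℕ :=
  ((lay N m (d - e)).filter fun v => v + Multiset.replicate e (m - 1) ∉ N).card

/-- What the algebra gives for the dimensions `F m t j` (`m` variables, the powers `i < t`,
degree `j ≤ d`). -/
structure Sys (d : ℕ) (e : ℕ → ℕ) (F : ℕ → ℕ → ℕ → ℕ) : Prop where
  zero : ∀ m j, j ≤ d → F m 0 j = Nat.multichoose m j
  stair : ∀ m t, 1 ≤ m → ∃ N : Finset (Multiset ℕ), Stair m d N (fun i j => F i t j) ∧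
    ∀ j ≤ d, F m (t + 1) j = ((lay N m j).filter fun v => v.count (m - 1) < e t).card

/-- The thresholds. -/
structure Thr (m d : ℕ) (f : ℕ → ℕ → ℕ) (τ : ℕ → ℕ) (ε : ℝ) : Prop where
  lt : ∀ j, 1 ≤ j → j < d → τ j < m
  mono : ∀ j, 1 ≤ j → j + 1 < d → τ j ≤ τ (j + 1)
  recu : ∀ j, j + 1 < d → ∀ i, τ (j + 1) ≤ i → i < m → f (i + 1) (j + 1) = f i (j + 1) + f (i + 1) j
  ratio : ∀ j, 1 ≤ j → j + 1 < d → (f (τ j) j : ℝ) ≤ ε * f (τ (j + 1)) j
  last : ∀ j, 1 ≤ j → j < d → (f (τ j) j : ℝ) ≤ ε * f (m - 1) j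
  small : ∀ j, j + 1 < d → (f (m - 1) j : ℝ) ≤ ε * f (m - 1) (j + 1)
  pos : ∀ j, j < d → 0 < f (m - 1) j

/-- Exactness in degree `d` if all `A e m t j ≥ η n^j`, `j ≤ d`, for `n ≥ n₀`. -/
def Exact (d : ℕ) (η : ℝ) (n₀ : ℕ) : Prop :=
  ∀ n, n₀ ≤ n → ∀ (e : ℕ → ℕ) (F : ℕ → ℕ → ℕ → ℕ), (∀ t, 2 ≤ e t) → Sys d e F →
    ∀ m t, m ≤ n → (∀ j ≤ d, η * (n : ℝ) ^ j ≤ (A e m t j : ℝ)) → (F m t d : ℤ) = A e m t d

/-- The dimension of the forms of degree `j` in `m` variables which vanish to the order `j + 1 - e s` at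
the general points `s < t`; i.e. of the degree `j` part of `ℂ[x_1..x_m]/(L_s^{e s}, s < t)`. -/
noncomputable def FF (e : ℕ → ℕ) (m t j : ℕ) : ℕ :=
  match m with
  | 0 => if j = 0 then 1 else 0
  | m + 1 => gdim m j (fun s : Fin t => j + 1 - e s)

end Pool.Agent.XD
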