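import Mathlib

/-!
# Project XD: leading positions of a space of functions

`Lead W` is the set of the highest positions of the support of the functions in `W`.
-/

set_option autoImplicit false

namespace Pool.Agent.XD

open Finset

section

variable {E : Type} [Fintype E] [LinearOrder E]

open Classical in
/-- The highest positions of the functions in `W`. -/
noncomputable def Lead (W : Submodule ℂ (E → ℂ)) : Finset E :=
  univ.filter fun v => ∃ f ∈ W, f v ≠ 0 ∧ ∀ u, v < u → f u = 0

theorem mem_Lead {W : Submodule ℂ (E → ℂ)} {v : E} :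
    v ∈ Lead W ↔ ∃ f ∈ W, f v ≠ 0 ∧ ∀ u, v < u → f u = 0 := by
  classical
  unfold Lead
  simp only [mem_filter, mem_univ, true_and]

/-- The number of leading positions is the dimension. -/
theorem card_Lead (W : Submodule ℂ (E → ℂ)) : (Lead W).card = Module.finrank ℂ W := by
  classical
  apply le_antisymm
  · -- independent functions
    have h1 : ∀ v : Lead W, ∃ f : W, f.1 v.1 ≠ 0 ∧ ∀ u, v.1 < u → f.1 u = 0 := by
      intro v
      obtain ⟨f, hf, h⟩ := mem_Lead.1 v.2
      exact ⟨⟨f, hf⟩, h⟩
    choose F hF0 hF using h1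
    have hli : LinearIndependent ℂ F := by
      rw [Fintype.linearIndependent_iff]
      intro c hc
      by_contra hcon
      push Not at hcon
      obtain ⟨v₀, hv₀⟩ := hcon
      -- the highest nonzero coefficient
      obtain ⟨v, hv, hmax⟩ := exists_max_image (univ.filter fun v : Lead W => c v ≠ 0)
        (fun v => v.1) ⟨v₀, mem_filter.2 ⟨mem_univ _, hv₀⟩⟩
      rw [mem_filter] at hv
      have h2 := congrFun (congrArg Subtype.val hc) v.1
      rw [Submodule.coe_sum, Finset.sum_apply, sum_eq_single v] at h2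
      · have h3 : c v * (F v).1 v.1 = 0 := h2
        rcases mul_eq_zero.1 h3 with h4 | h4
        · exact hv.2 h4
        · exact hF0 v h4
      · intro w _ hwv
        show c w * (F w).1 v.1 = 0
        by_cases hw : c w = 0
        · rw [hw, zero_mul]
        · have h4 := hmax w (mem_filter.2 ⟨mem_univ _, hw⟩)
          have h5 : w.1 < v.1 := lt_of_le_of_ne h4 fun h => hwv (Subtype.ext h)
          rw [hF w v.1 h5, mul_zero]
      · intro h
        exact absurd (mem_univ _) h
    have h2 := hli.fintype_card_le_finrank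
    rwa [Fintype.card_coe] at h2
  · -- restriction to the leading positions is injective
    let R : W →ₗ[ℂ] (Lead W → ℂ) :=
      { toFun := fun f v => f.1 v.1
        map_add' := fun f g => rfl
        map_smul' := fun c f => rfl }
    have hinj : Function.Injective R := by
      rw [← LinearMap.ker_eq_bot, LinearMap.ker_eq_bot']
      intro f hf
      by_contra hne
      have h1 : ∃ v, f.1 v ≠ 0 := by
        by_contra hcon
        push Not at hcon
        exact hne (Subtype.ext (funext hcon))
      obtain ⟨v₀, hv₀⟩ := h1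
      obtain ⟨v, hv, hmax⟩ := exists_max_image (univ.filter fun v : E => f.1 v ≠ 0)
        (fun v => v) ⟨v₀, mem_filter.2 ⟨mem_univ _, hv₀⟩⟩
      rw [mem_filter] at hv
      have h2 : v ∈ Lead W := by
        rw [mem_Lead]
        refine ⟨f.1, f.2, hv.2, fun u hu => ?_⟩
        by_contra h3
        exact absurd (hmax u (mem_filter.2 ⟨mem_univ _, h3⟩)) (not_le.2 hu)
      exact hv.2 (congrFun hf ⟨v, h2⟩)
    have h2 := LinearMap.finrank_le_finrank_of_injective hinj
    rwa [Module.finrank_fintype_fun_eq_card, Fintype.card_coe] at h2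

/-- The functions in `W` vanishing outside `L`. -/
def Rst (W : Submodule ℂ (E → ℂ)) (L : Finset E) : Submodule ℂ (E → ℂ) where
  carrier := {f | f ∈ W ∧ ∀ u, u ∉ L → f u = 0}
  zero_mem' := ⟨W.zero_mem, fun u _ => rfl⟩
  add_mem' := fun {f g} hf hg => ⟨W.add_mem hf.1 hg.1, fun u hu => by
    rw [Pi.add_apply, hf.2 u hu, hg.2 u hu, add_zero]⟩
  smul_mem' := fun c f hf => ⟨W.smul_mem c hf.1, fun u hu => by
    rw [Pi.smul_apply, hf.2 u hu, smul_zero]⟩

omit [Fintype E] [LinearOrder E] in
theorem mem_Rst {W : Submodule ℂ (E → ℂ)} {L : Finset E} {f : E → ℂ} :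
    f ∈ Rst W L ↔ f ∈ W ∧ ∀ u, u ∉ L → f u = 0 := Iff.rfl

/-- The leading positions in an initial segment. -/
theorem card_Lead_inter (W : Submodule ℂ (E → ℂ)) (L : Finset E)
    (hL : ∀ v ∈ L, ∀ u, u ≤ v → u ∈ L) :
    ((Lead W).filter fun v => v ∈ L).card = Module.finrank ℂ (Rst W L) := by
  rw [← card_Lead]
  congr 1
  ext v
  rw [mem_filter, mem_Lead, mem_Lead]
  constructor
  · rintro ⟨⟨f, hf, h1, h2⟩, hv⟩
    refine ⟨f, ⟨hf, fun u hu => h2 u ?_⟩, h1, h2⟩
    by_contra h3
    exact hu (hL v hv u (not_lt.1 h3))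
  · rintro ⟨f, ⟨hf, h0⟩, h1, h2⟩
    refine ⟨⟨f, hf, h1, h2⟩, ?_⟩
    by_contra h3
    exact h1 (h0 v h3)

end

end Pool.Agent.XD
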