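import Pool.Agent.XD.Sys

/-!
# Project XD: elementary substitutions on coefficients
-/

set_option autoImplicit false

namespace Pool.Agent.XD

open Finset MvPolynomial Pool.Agent.H18.Fat

/-- `x^α` with `l` factors `x_i` replaced by `x_k`. -/
noncomputable def mv {n : ℕ} (i k : Fin n) (l : ℕ) (α : Fin n →₀ ℕ) : Fin n →₀ ℕ :=
  α - Finsupp.single i l + Finsupp.single k l

theorem mv_apply {n : ℕ} (i k : Fin n) (l : ℕ) (α : Fin n →₀ ℕ) (x : Fin n) :
    mv i k l α x = α x - (if x = i then l else 0) + if x = k then l else 0 := by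
  unfold mv
  rw [Finsupp.add_apply, Finsupp.tsub_apply, Finsupp.single_apply, Finsupp.single_apply]
  congr 1
  · congr 1
    by_cases h : i = x
    · rw [if_pos h, if_pos h.symm]
    · rw [if_neg h, if_neg (Ne.symm h)]
  · by_cases h : k = x
    · rw [if_pos h, if_pos h.symm]
    · rw [if_neg h, if_neg (Ne.symm h)]

theorem mv_zero {n : ℕ} (i k : Fin n) (α : Fin n →₀ ℕ) : mv i k 0 α = α := by
  ext x
  rw [mv_apply]
  split_ifs <;> rfl

private theorem Subst_g {n : ℕ} {i k : Fin n} (t : ℂ) (x : Fin n) :
    (∑ j, C (Matrix.transvection i k t x j) * X j : MvPolynomial (Fin n) ℂ) =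
      (if x = i then C t * X k else 0) + X x := by
  unfold Matrix.transvection
  have h1 : ∀ j, (C ((1 + Matrix.single i k t : Matrix (Fin n) (Fin n) ℂ) x j) * X j :
      MvPolynomial (Fin n) ℂ) = (if i = x ∧ k = j then C t * X j else 0) +
        if x = j then X j else 0 := by
    intro j
    rw [Matrix.add_apply, C_add, add_mul, Matrix.one_apply, Matrix.single_apply, add_comm]
    congr 1
    · split_ifs
      · rfl
      · rw [C_0, zero_mul]
    · split_ifs
      · rw [C_1, one_mul]
      · rw [C_0, zero_mul]
  rw [sum_congr rfl fun j _ => h1 j, sum_add_distrib]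
  congr 1
  · by_cases hx : x = i
    · subst hx
      simp
    · rw [if_neg hx]
      refine sum_eq_zero fun j _ => ?_
      rw [if_neg]
      rintro ⟨h, _⟩
      exact hx h.symm
  · simp

theorem lin_mono {n : ℕ} {i k : Fin n} (hik : k ≠ i) (t : ℂ) (α : Fin n →₀ ℕ) (c : ℂ) :
    linSubst (Matrix.transvection i k t) (monomial α c) =
      ∑ l ∈ range (α i + 1), monomial (mv i k l α) (c * ((α i).choose l : ℂ) * t ^ l) := by
  classical
  unfold linSubst
  rw [aeval_monomial, algebraMap_eq, Finsupp.prod_fintype _ _ (by intro x; simp),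
    ← mul_prod_erase univ _ (mem_univ i)]
  have h1 : (∑ j, C (Matrix.transvection i k t i j) * X j : MvPolynomial (Fin n) ℂ) =
      C t * X k + X i := by
    rw [Subst_g, if_pos rfl]
  have h2 : ∏ x ∈ univ.erase i, (∑ j, C (Matrix.transvection i k t x j) * X j) ^ α x =
      ∏ x ∈ univ.erase i, (X x : MvPolynomial (Fin n) ℂ) ^ α x := by
    refine prod_congr rfl fun x hx => ?_
    rw [Subst_g, if_neg (ne_of_mem_erase hx), zero_add]
  rw [h1, h2, add_pow, sum_mul, mul_sum]
  refine sum_congr rfl fun l _ => ?_
  rw [monomial_eq, Finsupp.prod_fintype _ _ (by intro x; simp),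
    ← mul_prod_erase univ _ (mem_univ i)]
  have h3 : ∏ x ∈ univ.erase i, (X x : MvPolynomial (Fin n) ℂ) ^ mv i k l α x =
      (∏ x ∈ univ.erase i, (X x : MvPolynomial (Fin n) ℂ) ^ α x) * X k ^ l := by
    have h4 : ∀ x ∈ univ.erase i, (X x : MvPolynomial (Fin n) ℂ) ^ mv i k l α x =
        (X x : MvPolynomial (Fin n) ℂ) ^ α x * if x = k then X k ^ l else 1 := by
      intro x hx
      rw [mv_apply, if_neg (ne_of_mem_erase hx), Nat.sub_zero]
      by_cases hk : x = k
      · rw [if_pos hk, if_pos hk, pow_add, hk]
      · rw [if_neg hk, if_neg hk, mul_one, add_zero]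
    rw [prod_congr rfl h4, prod_mul_distrib, prod_ite_eq', if_pos (mem_erase.2 ⟨hik, mem_univ _⟩)]
  have h5 : mv i k l α i = α i - l := by
    rw [mv_apply, if_pos rfl, if_neg (Ne.symm hik), add_zero]
  rw [h3, h5, mul_pow, C_mul, C_mul, C_pow, ← C_eq_coe_nat]
  simp only [map_natCast]
  ring

/-- The coefficients of the transformed polynomial, as polynomials in `t`. -/
noncomputable def Tp {n : ℕ} (i k : Fin n) (F : MvPolynomial (Fin n) ℂ) (u : Fin n →₀ ℕ) :
    Polynomial ℂ :=
  ∑ α ∈ F.support, ∑ l ∈ range (α i + 1),
    if mv i k l α = u then Polynomial.monomial l (coeff α F * ((α i).choose l : ℂ)) else 0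

theorem eval_Tp {n : ℕ} {i k : Fin n} (hik : k ≠ i) (t : ℂ) (F : MvPolynomial (Fin n) ℂ)
    (u : Fin n →₀ ℕ) :
    Polynomial.eval t (Tp i k F u) = coeff u (linSubst (Matrix.transvection i k t) F) := by
  classical
  conv_rhs => rw [F.as_sum]
  rw [map_sum, coeff_sum]
  unfold Tp
  rw [Polynomial.eval_finset_sum]
  refine sum_congr rfl fun α _ => ?_
  rw [lin_mono hik, coeff_sum, Polynomial.eval_finset_sum]
  refine sum_congr rfl fun l _ => ?_
  rw [coeff_monomial]
  split_ifs
  · rw [Polynomial.eval_monomial]
  · rw [Polynomial.eval_zero]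

/-- The constant term. -/
theorem Tp_zero {n : ℕ} {i k : Fin n} (F : MvPolynomial (Fin n) ℂ) (u : Fin n →₀ ℕ) :
    (Tp i k F u).coeff 0 = coeff u F := by
  classical
  unfold Tp
  rw [Polynomial.finsetSum_coeff]
  have h1 : ∀ α ∈ F.support, (∑ l ∈ range (α i + 1),
      if mv i k l α = u then Polynomial.monomial l (coeff α F * ((α i).choose l : ℂ)) else 0 :
      Polynomial ℂ).coeff 0 = if α = u then coeff α F else 0 := by
    intro α _
    rw [Polynomial.finsetSum_coeff, sum_eq_single 0]
    · rw [mv_zero]
      split_ifs
      · rw [Polynomial.coeff_monomial, if_pos rfl, Nat.choose_zero_right, Nat.cast_one, mul_one]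
      · rw [Polynomial.coeff_zero]
    · intro l _ hl
      split_ifs
      · rw [Polynomial.coeff_monomial, if_neg hl]
      · rw [Polynomial.coeff_zero]
    · intro h
      exact absurd (mem_range.2 (Nat.succ_pos _)) h
  rw [sum_congr rfl h1, sum_ite_eq']
  split_ifs with h
  · rfl
  · exact (notMem_support_iff.1 h).symm

/-- The linear term at an exponent `v` with `w + e_k = v + e_i`. -/
theorem Tp_one {n : ℕ} {i k : Fin n} (hik : k ≠ i) (F : MvPolynomial (Fin n) ℂ)
    (v w : Fin n →₀ ℕ) (h : w + Finsupp.single k 1 = v + Finsupp.single i 1) :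
    (Tp i k F v).coeff 1 = coeff w F * (w i : ℂ) := by
  classical
  unfold Tp
  rw [Polynomial.finsetSum_coeff]
  have hwi : 1 ≤ w i := by
    have h1 := DFunLike.congr_fun h i
    rw [Finsupp.add_apply, Finsupp.add_apply, Finsupp.single_eq_same,
      Finsupp.single_eq_of_ne hik.symm] at h1
    omega
  have h1 : ∀ α ∈ F.support, (∑ l ∈ range (α i + 1),
      if mv i k l α = v then Polynomial.monomial l (coeff α F * ((α i).choose l : ℂ)) else 0 :
      Polynomial ℂ).coeff 1 = if α = w then coeff α F * (α i : ℂ) else 0 := by
    intro α _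
    rw [Polynomial.finsetSum_coeff]
    by_cases hα : α = w
    · subst hα
      rw [if_pos rfl, sum_eq_single 1]
      · rw [if_pos, Polynomial.coeff_monomial, if_pos rfl, Nat.choose_one_right]
        ext x
        have h2 := DFunLike.congr_fun h x
        rw [Finsupp.add_apply, Finsupp.add_apply, Finsupp.single_apply,
          Finsupp.single_apply] at h2
        rw [mv_apply]
        by_cases hx : x = i
        · subst hx
          rw [if_pos rfl, if_neg hik.symm]
          rw [if_neg hik, if_pos rfl] at h2
          omega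
        · rw [if_neg hx]
          rw [if_neg (Ne.symm hx)] at h2
          by_cases hx' : x = k
          · subst hx'
            rw [if_pos rfl] at h2 ⊢
            omega
          · rw [if_neg hx']
            rw [if_neg (Ne.symm hx')] at h2
            omega
      · intro l _ hl
        split_ifs
        · rw [Polynomial.coeff_monomial, if_neg hl]
        · rw [Polynomial.coeff_zero]
      · intro h2
        exact absurd (mem_range.2 (by omega)) h2
    · rw [if_neg hα]
      refine sum_eq_zero fun l hl => ?_
      rw [mem_range] at hl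
      by_cases hl1 : l = 1
      · subst hl1
        rw [if_neg]
        · rw [Polynomial.coeff_zero]
        · intro h2
          apply hα
          ext x
          have h3 := DFunLike.congr_fun h x
          have h4 := DFunLike.congr_fun h2 x
          rw [Finsupp.add_apply, Finsupp.add_apply, Finsupp.single_apply,
            Finsupp.single_apply] at h3
          rw [mv_apply] at h4
          by_cases hx : x = i
          · subst hx
            rw [if_pos rfl, if_neg hik.symm] at h4
            rw [if_neg hik, if_pos rfl] at h3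
            omega
          · rw [if_neg hx] at h4
            rw [if_neg (Ne.symm hx)] at h3
            by_cases hx' : x = k
            · subst hx'
              rw [if_pos rfl] at h3 h4
              omega
            · rw [if_neg hx'] at h4
              rw [if_neg (Ne.symm hx')] at h3
              omega
      · split_ifs
        · rw [Polynomial.coeff_monomial, if_neg hl1]
        · rw [Polynomial.coeff_zero]
  rw [sum_congr rfl h1, sum_ite_eq']
  split_ifs with h2
  · rfl
  · rw [notMem_support_iff.1 h2, zero_mul]

/-- The linear term at an exponent not involving `k`. -/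
theorem Tp_one' {n : ℕ} {i k : Fin n} (F : MvPolynomial (Fin n) ℂ)
    (u : Fin n →₀ ℕ) (h : u k = 0) : (Tp i k F u).coeff 1 = 0 := by
  classical
  unfold Tp
  rw [Polynomial.finsetSum_coeff]
  refine sum_eq_zero fun α _ => ?_
  rw [Polynomial.finsetSum_coeff]
  refine sum_eq_zero fun l _ => ?_
  by_cases hl1 : l = 1
  · subst hl1
    rw [if_neg]
    · rw [Polynomial.coeff_zero]
    · intro h2
      have h4 := DFunLike.congr_fun h2 k
      rw [mv_apply, if_pos rfl] at h4
      omega
  · split_ifs
    · rw [Polynomial.coeff_monomial, if_neg hl1]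
    · rw [Polynomial.coeff_zero]

end Pool.Agent.XD
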