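import Pool.Agent.XD.Lead
import Pool.Agent.H21.NX.GenB
import Pool.Agent.H51.TB.Gd

/-!
# Project XD: forms with prescribed exponents, leading exponents

`sup L`: the polynomials with exponents in `L`.  `Ld d W`: the highest exponents (colexicographic
order) of the forms of degree `d` in `W`.
-/

set_option autoImplicit false

namespace Pool.Agent.XD

open Finset MvPolynomial Pool.Agent.H18.Fat Pool.Agent.H21.NX Pool.Agent.H51.TB

/-- The polynomials with exponents in `L`. -/
def sup {n : ℕ} (L : Finset (Fin n →₀ ℕ)) : Submodule ℂ (MvPolynomial (Fin n) ℂ) where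
  carrier := {F | ∀ α, α ∉ L → coeff α F = 0}
  zero_mem' := fun α _ => coeff_zero α
  add_mem' := fun {F G} hF hG α hα => by rw [coeff_add, hF α hα, hG α hα, add_zero]
  smul_mem' := fun c F hF α hα => by rw [coeff_smul, hF α hα, smul_zero]

theorem mem_sup {n : ℕ} {L : Finset (Fin n →₀ ℕ)} {F : MvPolynomial (Fin n) ℂ} :
    F ∈ sup L ↔ ∀ α, α ∉ L → coeff α F = 0 := Iff.rfl

/-- The colexicographic order of the exponents. -/
def clt {n : ℕ} (u v : Fin n →₀ ℕ) : Prop := ∃ i, u i < v i ∧ ∀ j, i < j → u j = v j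

/-- The exponents of degree `d`. -/
def Ex (n d : ℕ) : Type := {α // α ∈ mons n d}

noncomputable instance (n d : ℕ) : Fintype (Ex n d) :=
  inferInstanceAs (Fintype {α // α ∈ mons n d})

/-- The order on the exponents. -/
noncomputable instance (n d : ℕ) : LinearOrder (Ex n d) :=
  LinearOrder.lift' (fun α : Ex n d => toColex (⇑α.1 : Fin n → ℕ)) fun α β h =>
    Subtype.ext (DFunLike.coe_injective (toColex.injective h))

theorem lt_iff_clt {n d : ℕ} {u v : Ex n d} : u < v ↔ clt u.1 v.1 := by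
  constructor
  · rintro ⟨i, h1, h2⟩
    exact ⟨i, h2, fun j hj => h1 j hj⟩
  · rintro ⟨i, h1, h2⟩
    exact ⟨i, fun j hj => h2 j hj, h1⟩

theorem clt_irrefl {n : ℕ} (u : Fin n →₀ ℕ) : ¬ clt u u := by
  rintro ⟨i, h, _⟩
  exact lt_irrefl _ h

theorem clt_trans {n : ℕ} {u v w : Fin n →₀ ℕ} (h1 : clt u v) (h2 : clt v w) : clt u w := by
  obtain ⟨i, hi, hi'⟩ := h1
  obtain ⟨k, hk, hk'⟩ := h2
  rcases lt_trichotomy i k with h | h | h
  · exact ⟨k, by rw [hi' k h]; exact hk, fun j hj => (hi' j (h.trans hj)).trans (hk' j hj)⟩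
  · subst h
    exact ⟨i, hi.trans hk, fun j hj => (hi' j hj).trans (hk' j hj)⟩
  · exact ⟨i, by rw [← hk' i h]; exact hi, fun j hj => (hi' j hj).trans (hk' j (h.trans hj))⟩

theorem clt_trichotomy {n d : ℕ} {u v : Fin n →₀ ℕ} (hu : u ∈ mons n d) (hv : v ∈ mons n d) :
    clt u v ∨ u = v ∨ clt v u := by
  let u' : Ex n d := ⟨u, hu⟩
  let v' : Ex n d := ⟨v, hv⟩
  rcases lt_trichotomy u' v' with h | h | h
  · exact Or.inl (lt_iff_clt.1 h)
  · exact Or.inr (Or.inl (congrArg Subtype.val h))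
  · exact Or.inr (Or.inr (lt_iff_clt.1 h))

theorem clt_add_iff {n : ℕ} {u v : Fin n →₀ ℕ} (w : Fin n →₀ ℕ) : clt (u + w) (v + w) ↔ clt u v := by
  unfold clt
  simp only [Finsupp.add_apply, add_lt_add_iff_right, add_left_inj]

open Classical in
/-- The highest exponents of the forms of degree `d` in `W`. -/
noncomputable def Ld {n : ℕ} (d : ℕ) (W : Submodule ℂ (MvPolynomial (Fin n) ℂ)) :
    Finset (Fin n →₀ ℕ) :=
  (mons n d).filter fun v => ∃ F ∈ W, coeff v F ≠ 0 ∧ ∀ u, clt v u → coeff u F = 0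

theorem mem_Ld {n d : ℕ} {W : Submodule ℂ (MvPolynomial (Fin n) ℂ)} {v : Fin n →₀ ℕ} :
    v ∈ Ld d W ↔ v ∈ mons n d ∧ ∃ F ∈ W, coeff v F ≠ 0 ∧ ∀ u, clt v u → coeff u F = 0 := by
  classical
  unfold Ld
  simp only [mem_filter]

/-- The number of highest exponents in an initial segment is a dimension. -/
theorem card_Ld {n d : ℕ} (W : Submodule ℂ (MvPolynomial (Fin n) ℂ))
    (hW : ∀ F ∈ W, F.IsHomogeneous d) (L : Finset (Fin n →₀ ℕ))
    (hL : ∀ v ∈ L, ∀ u ∈ mons n d, clt u v → u ∈ L) (hLd : L ⊆ mons n d) :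
    ((Ld d W).filter fun v => v ∈ L).card =
      Module.finrank ℂ (W ⊓ sup L : Submodule ℂ (MvPolynomial (Fin n) ℂ)) := by
  classical
  let W' : Submodule ℂ (Ex n d → ℂ) := W.comap (toPoly n d)
  let L' : Finset (Ex n d) := univ.filter fun α => α.1 ∈ L
  have h1 := card_Lead_inter W' L' (by
    intro v hv u hu
    rw [mem_filter] at hv ⊢
    refine ⟨mem_univ _, ?_⟩
    rcases eq_or_lt_of_le hu with h | h
    · rw [h]
      exact hv.2
    · exact hL v.1 hv.2 u.1 u.2 (lt_iff_clt.1 h))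
  have h2 : ((Ld d W).filter fun v => v ∈ L).card = ((Lead W').filter fun v => v ∈ L').card := by
    symm
    refine card_bij (fun v _ => v.1) ?_ ?_ ?_
    · intro v hv
      rw [mem_filter, mem_Lead, mem_filter] at hv
      obtain ⟨⟨f, hf, hfv, hfu⟩, _, hvL⟩ := hv
      rw [mem_filter, mem_Ld]
      refine ⟨⟨v.2, toPoly n d f, hf, ?_, fun u hu => ?_⟩, hvL⟩
      · rw [coeff_toPoly]
        exact hfv
      · by_cases hud : u ∈ mons n d
        · rw [coeff_toPoly f ⟨u, hud⟩]
          exact hfu ⟨u, hud⟩ (lt_iff_clt.2 hu)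
        · rw [mem_mons] at hud
          exact (toPoly_isHomogeneous f).coeff_eq_zero hud
    · intro v _ w _ h
      exact Subtype.ext h
    · intro v hv
      rw [mem_filter, mem_Ld] at hv
      obtain ⟨⟨hvd, F, hF, hFv, hFu⟩, hvL⟩ := hv
      refine ⟨⟨v, hvd⟩, ?_, rfl⟩
      rw [mem_filter, mem_Lead, mem_filter]
      refine ⟨⟨fun α => coeff α.1 F, ?_, hFv, fun u hu => hFu u.1 (lt_iff_clt.1 hu)⟩,
        mem_univ _, hvL⟩
      show toPoly n d (fun α => coeff α.1 F) ∈ W
      rw [exists_toPoly (hW F hF)]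
      exact hF
  rw [h2, h1]
  have h3 : (Rst W' L').map (toPoly n d) = W ⊓ sup L := by
    ext F
    constructor
    · rintro ⟨f, ⟨hf1, hf2⟩, rfl⟩
      refine ⟨hf1, fun α hα => ?_⟩
      by_cases hαd : α ∈ mons n d
      · rw [coeff_toPoly f ⟨α, hαd⟩]
        refine hf2 ⟨α, hαd⟩ fun h => hα ?_
        exact (mem_filter.1 h).2
      · rw [mem_mons] at hαd
        exact (toPoly_isHomogeneous f).coeff_eq_zero hαd
    · rintro ⟨hF1, hF2⟩
      refine ⟨fun α => coeff α.1 F, ⟨?_, fun α hα => ?_⟩, exists_toPoly (hW F hF1)⟩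
      · show toPoly n d (fun α => coeff α.1 F) ∈ W
        rw [exists_toPoly (hW F hF1)]
        exact hF1
      · refine hF2 α.1 fun h => hα ?_
        exact mem_filter.2 ⟨mem_univ _, h⟩
  rw [← h3]
  exact (Submodule.equivMapOfInjective _ (toPoly_injective n d) _).finrank_eq

/-! ### The system of the forms with exponents in `L` -/

/-- The system of the conditions on the forms with exponents in `L`. -/
noncomputable def GS {n : ℕ} (L : Finset (Fin n →₀ ℕ)) : Sys {α // α ∈ L} (Fin n) ℕ where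
  R := fun m => {β // β ∈ full n m}
  fin := fun m => inferInstance
  co := fun m β α => ∏ j, (C ((α.1 j).choose (β.1 j) : ℂ) * X j ^ (α.1 j - β.1 j))

theorem mem_GS {n : ℕ} {L : Finset (Fin n →₀ ℕ)} {κ : Type} {m : κ → ℕ} {p : κ → Fin n → ℂ}
    {f : {α // α ∈ L} → ℂ} : f ∈ (GS L).V m p ↔ ∀ i (β : Fin n →₀ ℕ), β.degree < m i →
      ∑ α : {α // α ∈ L}, tc (p i) α.1 β * f α = 0 := by
  rw [Sys.mem_V]
  have h0 : ∀ i (β : Fin n →₀ ℕ) (α : {α // α ∈ L}),
      eval (p i) (∏ j, (C ((α.1 j).choose (β j) : ℂ) * X j ^ (α.1 j - β j))) =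
        tc (p i) α.1 β := by
    intro i β α
    rw [map_prod]
    unfold tc
    refine prod_congr rfl fun j _ => ?_
    rw [map_mul, eval_C, map_pow, eval_X]
  constructor
  · intro h i β hβ
    rw [← h i ⟨β, mem_full.2 hβ⟩]
    refine sum_congr rfl fun α _ => ?_
    rw [← h0]
    rfl
  · intro h i β
    rw [← h i β.1 (mem_full.1 β.2)]
    refine sum_congr rfl fun α _ => ?_
    rw [← h0]
    rfl

/-- The forms with exponents in `L` and their coefficients. -/
theorem finrank_GS {r d : ℕ} {κ : Type} (m : κ → ℕ) (p : κ → Fin (r + 1) → ℂ)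
    (L : Finset (Fin (r + 1) →₀ ℕ)) (hL : L ⊆ mons (r + 1) d) :
    Module.finrank ℂ ((GS L).V m p) =
      Module.finrank ℂ (fatForms r d p m ⊓ sup L : Submodule ℂ (MvPolynomial (Fin (r + 1)) ℂ)) := by
  classical
  let P : ({α // α ∈ L} → ℂ) →ₗ[ℂ] MvPolynomial (Fin (r + 1)) ℂ :=
    { toFun := fun f => ∑ α : {α // α ∈ L}, monomial α.1 (f α)
      map_add' := fun f g => by
        rw [← sum_add_distrib]
        exact sum_congr rfl fun α _ => by simp
      map_smul' := fun c f => by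
        rw [RingHom.id_apply, smul_sum]
        exact sum_congr rfl fun α _ => by simp [smul_monomial] }
  have hP : ∀ f, P f = ∑ α : {α // α ∈ L}, monomial α.1 (f α) := fun f => rfl
  have hc : ∀ f (α : {α // α ∈ L}), coeff α.1 (P f) = f α := by
    intro f α
    rw [hP, coeff_sum]
    simp only [coeff_monomial, Subtype.coe_inj]
    simp
  have hc0 : ∀ f (α : Fin (r + 1) →₀ ℕ), α ∉ L → coeff α (P f) = 0 := by
    intro f α hα
    rw [hP, coeff_sum]
    refine sum_eq_zero fun β _ => ?_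
    rw [coeff_monomial, if_neg]
    intro h
    exact hα (h ▸ β.2)
  have hinj : Function.Injective P := by
    intro f g h
    funext α
    rw [← hc f α, ← hc g α, h]
  have hsh : ∀ (q : Fin (r + 1) → ℂ) (β : Fin (r + 1) →₀ ℕ) (f : {α // α ∈ L} → ℂ),
      coeff β (shift q (P f)) = ∑ α : {α // α ∈ L}, tc q α.1 β * f α := by
    intro q β f
    rw [hP]
    unfold shift
    rw [map_sum, coeff_sum]
    refine sum_congr rfl fun α _ => ?_
    rw [mul_comm]
    exact coeff_shift_monomial q α.1 β _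
  have h3 : ((GS L).V m p).map P = fatForms r d p m ⊓ sup L := by
    ext F
    constructor
    · rintro ⟨f, hf, rfl⟩
      rw [SetLike.mem_coe, mem_GS] at hf
      refine ⟨⟨?_, fun i β hβ => ?_⟩, fun α hα => hc0 f α hα⟩
      · rw [hP]
        apply IsHomogeneous.sum
        intro α _
        exact isHomogeneous_monomial _ (mem_mons.1 (hL α.2))
      · rw [hsh]
        exact hf i β hβ
    · rintro ⟨hF1, hF2⟩
      have hPF : P (fun α => coeff α.1 F) = F := by
        ext α
        by_cases hα : α ∈ L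
        · exact hc (fun α => coeff α.1 F) ⟨α, hα⟩
        · rw [hc0 _ α hα, hF2 α hα]
      refine ⟨fun α => coeff α.1 F, ?_, hPF⟩
      rw [SetLike.mem_coe, mem_GS]
      intro i β hβ
      rw [← hsh, hPF]
      exact hF1.2 i β hβ
  rw [← h3]
  exact (Submodule.equivMapOfInjective _ hinj _).finrank_eq

/-- Semicontinuity with prescribed exponents. -/
theorem gn_sup {r d : ℕ} {κ : Type} [Fintype κ] (m : κ → ℕ) (L : Finset (Fin (r + 1) →₀ ℕ))
    (hL : L ⊆ mons (r + 1) d) : Gn κ (Fin (r + 1)) fun p => ∀ p' : κ → Fin (r + 1) → ℂ,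
      Module.finrank ℂ (fatForms r d p m ⊓ sup L : Submodule ℂ (MvPolynomial (Fin (r + 1)) ℂ)) ≤
      Module.finrank ℂ
        (fatForms r d p' m ⊓ sup L : Submodule ℂ (MvPolynomial (Fin (r + 1)) ℂ)) := by
  refine (gn_gd (GS L) m).mono fun p hp p' => ?_
  rw [← finrank_GS m p L hL, ← finrank_GS m p' L hL, hp]
  exact gd_le _ m p'

end Pool.Agent.XD
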